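import Mathlib
import Pool.Agent.Helper37.RG3.RW
import Pool.Agent.Helper85.RG3.HAM

set_option autoImplicit false
set_option linter.unusedSectionVars false

/-!
Twelve vertices: free sets of a perfect matching, and the three ways in which two of them meet.
-/

namespace Pool.Agent.Helper89.RG12

open Finset Pool.Agent.Helper37.RG3

variable {V : Type} [Fintype V] [DecidableEq V] {U : Finset V} {w : V → V → ℕ} {r : ℕ}

/-- `Y` has five vertices, a cut of size `r + 2`, and no edge of `m` inside -/
structure Free (U : Finset V) (w : V → V → ℕ) (r : ℕ) (m : V → V) (Y : Finset V) : Prop where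
  sub : Y ⊆ U
  card : Y.card = 5
  cut : ct w Y = r + 2
  out : ∀ u ∈ Y, m u ∉ Y

theorem cut_ge (h : RG U w r) (nt : NT U w r) (hU : U.card = 12) {X : Finset V} (hX : X ⊆ U)
    (ho : Odd X.card) (h3 : 3 ≤ X.card) (h9 : X.card ≤ 9) : r + 2 ≤ ct w X := by
  have h1 := nt X hX ho h3 (by omega)
  have h2 := h.ct_odd_parity hX ho
  omega

theorem cut_one (h : RG U w r) {X : Finset V} (hX : X ⊆ U) (h1 : X.card = 1) : ct w X = r := by
  obtain ⟨u, rfl⟩ := Finset.card_eq_one.mp h1
  exact h.ct_singleton (hX (by simp))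

theorem free_of {m : V → V} {Y : Finset V} (hY : Y ⊆ U) (c5 : Y.card = 5) (hct : ct w Y = r + 2)
    (hcr : cr m Y = 5) : Free U w r m Y := by
  refine ⟨hY, c5, hct, ?_⟩
  have e1 : (Y.filter fun x => m x ∉ Y) = Y :=
    Finset.eq_of_subset_of_card_le (Finset.filter_subset _ _) (by unfold cr at hcr; omega)
  intro u hu
  rw [← e1, mem_filter] at hu
  exact hu.2

theorem free_exists (h : RG U w r) (nt : NT U w r) (bd : BD U w r) (hU : U.card = 12)
    {m : V → V} (hm : PM U w m) : ∃ Y, Free U w r m Y := by
  obtain ⟨X, hX, ho, hlt⟩ := bd m hm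
  have hle : X.card ≤ 12 := hU ▸ Finset.card_le_card hX
  have hcr1 := cr_le m X
  have hcc : (U \ X).card = 12 - X.card := by rw [Finset.card_sdiff_of_subset hX, hU]
  have hcr2 := cr_le m (U \ X)
  have hcomp := cr_compl h hm hX
  have hcut := h.ct_compl hX
  have hpar := cr_parity h hm hX
  have hpar2 := h.ct_odd_parity hX ho
  obtain ⟨k, hk⟩ := ho
  have ho' : Odd X.card := ⟨k, hk⟩
  have hk5 : k < 6 := by omega
  have hsub : U \ X ⊆ U := Finset.sdiff_subset
  interval_cases k
  · have := cut_one h hX (by omega)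
    omega
  · have := cut_ge h nt hU hX ho' (by omega) (by omega)
    omega
  · have := cut_ge h nt hU hX ho' (by omega) (by omega)
    exact ⟨X, free_of hX (by omega) (by omega) (by omega)⟩
  · have := cut_ge h nt hU hX ho' (by omega) (by omega)
    exact ⟨U \ X, free_of hsub (by omega) (by omega) (by omega)⟩
  · have := cut_ge h nt hU hX ho' (by omega) (by omega)
    omega
  · have := cut_one h hsub (by omega)
    omega

/-- union of matchings -/
theorem pm_union {K L : Finset V} {n n' : V → V} (hd : Disjoint K L) (hK : PM K w n)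
    (hL : PM L w n') : PM (K ∪ L) w (fun u => if u ∈ K then n u else n' u) := by
  have hmK : ∀ u ∈ K, n u ∈ K := by
    intro u hu
    by_contra hc
    have h1 := hK.out (n u) hc
    rw [hK.invol] at h1
    rw [← h1] at hc
    exact hc hu
  have hmL : ∀ u, u ∉ K → n' u ∉ K := by
    intro u hu hc
    have h1 : n' u ∉ L := fun h2 => Finset.disjoint_left.mp hd hc h2
    have h2 := hL.out (n' u) h1
    rw [hL.invol] at h2
    rw [← h2] at hc
    exact hu hc
  refine ⟨?_, ?_, ?_⟩
  · intro u
    by_cases hu : u ∈ K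
    · simp only [hu, hmK u hu, if_true, hK.invol]
    · simp only [hu, hmL u hu, if_false, hL.invol]
  · intro u hu
    rw [mem_union, not_or] at hu
    simp only [hu.1, if_false]
    exact hL.out u hu.2
  · intro u hu
    by_cases hu' : u ∈ K
    · simp only [hu', if_true]
      exact hK.adj u hu'
    · simp only [hu', if_false]
      rcases mem_union.mp hu with h1 | h1
      · exact absurd h1 hu'
      · exact hL.adj u h1

theorem pm_pair (hs : ∀ u v, w u v = w v u) {a b : V} (hw : w a b ≠ 0) :
    PM {a, b} w (Equiv.swap a b) := by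
  refine ⟨?_, ?_, ?_⟩
  · intro u
    rw [← Equiv.Perm.mul_apply, Equiv.swap_mul_self, Equiv.Perm.one_apply]
  · intro u hu
    rw [mem_insert, mem_singleton, not_or] at hu
    exact Equiv.swap_apply_of_ne_of_ne hu.1 hu.2
  · intro u hu
    rw [mem_insert, mem_singleton] at hu
    rcases hu with rfl | rfl
    · rwa [Equiv.swap_apply_left]
    · rwa [Equiv.swap_apply_right, hs]

/-- a numbering of a set of five vertices -/
structure Fr (X : Finset V) (f : Fin 5 → V) : Prop where
  inj : Function.Injective f
  mem : ∀ i, f i ∈ X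

theorem Fr.eq {X : Finset V} {f : Fin 5 → V} (hf : Fr X f) (c5 : X.card = 5) :
    univ.image f = X := by
  apply Finset.eq_of_subset_of_card_le
  · intro v hv
    obtain ⟨i, _, rfl⟩ := Finset.mem_image.mp hv
    exact hf.mem i
  · rw [Finset.card_image_of_injective _ hf.inj, c5]
    simp

theorem Fr.sum {X : Finset V} {f : Fin 5 → V} (hf : Fr X f) (c5 : X.card = 5) (F : V → ℕ) :
    ∑ u ∈ X, F u = F (f 0) + F (f 1) + F (f 2) + F (f 3) + F (f 4) := by
  rw [← hf.eq c5, Finset.sum_image (fun i _ j _ hij => hf.inj hij), Fin.sum_univ_five]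

theorem Fr.ex {X : Finset V} {f : Fin 5 → V} (hf : Fr X f) (c5 : X.card = 5) {u : V}
    (hu : u ∈ X) : u = f 0 ∨ u = f 1 ∨ u = f 2 ∨ u = f 3 ∨ u = f 4 := by
  rw [← hf.eq c5] at hu
  obtain ⟨i, _, rfl⟩ := Finset.mem_image.mp hu
  fin_cases i <;> simp

/-- outer degree -/
def od (U : Finset V) (w : V → V → ℕ) (X : Finset V) (v : V) : ℕ := bt w {v} (U \ X)

theorem od_deg (h : RG U w r) {X : Finset V} (hX : X ⊆ U) (c5 : X.card = 5) {f : Fin 5 → V}
    (hf : Fr X f) (i : Fin 5) :
    w (f i) (f 0) + w (f i) (f 1) + w (f i) (f 2) + w (f i) (f 3) + w (f i) (f 4)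
      + od U w X (f i) = r := by
  have h1 : bt w {f i} U = r * 1 := by
    have := h.bt_deg' (X := {f i}) (by
      intro v hv
      rw [mem_singleton] at hv
      rw [hv]
      exact hX (hf.mem i))
    simpa using this
  have h2 : bt w {f i} U = bt w {f i} X + bt w {f i} (U \ X) := by
    rw [← bt_union_right w _ Finset.disjoint_sdiff, Finset.union_sdiff_of_subset hX]
  have h3 : bt w {f i} X
      = w (f i) (f 0) + w (f i) (f 1) + w (f i) (f 2) + w (f i) (f 3) + w (f i) (f 4) := by
    rw [bt_singleton_left, hf.sum c5]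
  unfold od
  omega

theorem od_sum (h : RG U w r) {X : Finset V} (c5 : X.card = 5) {f : Fin 5 → V}
    (hf : Fr X f) :
    od U w X (f 0) + od U w X (f 1) + od U w X (f 2) + od U w X (f 3) + od U w X (f 4)
      = ct w X := by
  rw [← hf.sum c5 (fun u => od U w X u), h.ct_eq]
  unfold od bt
  exact Finset.sum_congr rfl fun u _ => by rw [Finset.sum_singleton]

theorem od_pos {X : Finset V} {v y : V} (hy : y ∈ U \ X) (hw : w v y ≠ 0) :
    1 ≤ od U w X v := by
  have h1 : w v y ≤ od U w X v := le_bt w (by simp) hy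
  omega

/-- the weight inside a triple of cut `r + 2` -/
theorem triple (h : RG U w r) {a b c : V} (ha : a ∈ U) (hb : b ∈ U) (hc : c ∈ U)
    (hab : a ≠ b) (hac : a ≠ c) (hbc : b ≠ c) (hct : ct w {a, b, c} = r + 2) :
    w a b + w a c + w b c + 1 = r := by
  have h1 := h.deg_sum (X := {a, b, c}) (by
    intro v hv
    simp only [mem_insert, mem_singleton] at hv
    rcases hv with rfl | rfl | rfl <;> assumption)
  have h2 : ({a, b, c} : Finset V).card = 3 := by
    rw [Finset.card_insert_of_notMem (by simp [hab, hac]),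
      Finset.card_insert_of_notMem (by simp [hbc]), Finset.card_singleton]
  have na : a ∉ ({b, c} : Finset V) := by simp [hab, hac]
  have nb : b ∉ ({c} : Finset V) := by simp [hbc]
  have h3 : bt w {a, b, c} {a, b, c} = 2 * (w a b + w a c + w b c) := by
    unfold bt
    simp only [Finset.sum_insert na, Finset.sum_insert nb, Finset.sum_singleton, h.irr,
      h.symm b a, h.symm c a, h.symm c b]
    ring
  rw [h2, h3, hct] at h1
  omega

end Pool.Agent.Helper89.RG12
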