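import Mathlib
import Pool.Agent.Helper89.RG12.A

set_option autoImplicit false
set_option linter.unusedSectionVars false

/-!
Twelve vertices: the three ways in which two free sets meet.
-/

namespace Pool.Agent.Helper89.RG12

open Finset Pool.Agent.Helper37.RG3

variable {V : Type} [Fintype V] [DecidableEq V] {U : Finset V} {w : V → V → ℕ} {r : ℕ}

theorem pick (h : RG U w r) {X : Finset V} (hX : X ⊆ U) (c5 : X.card = 5) {f : Fin 5 → V}
    (hf : Fr X f) {T : Finset V} (hT : T ⊆ X) (h0 : f 0 ∈ T) (h12 : f 1 ∈ T ↔ f 2 ∉ T)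
    (h34 : f 3 ∈ T ↔ f 4 ∉ T) (hct : ct w T = r + 2) :
    ∃ p q : Fin 5, (p = 1 ∨ p = 2) ∧ (q = 3 ∨ q = 4) ∧
      w (f 0) (f p) + w (f 0) (f q) + w (f p) (f q) + 1 = r := by
  have key : ∀ p q : Fin 5, p ≠ 0 → q ≠ 0 → p ≠ q → T = {f 0, f p, f q} →
      w (f 0) (f p) + w (f 0) (f q) + w (f p) (f q) + 1 = r := by
    intro p q hp hq hpq hTe
    rw [hTe] at hct
    exact triple h (hX (hf.mem 0)) (hX (hf.mem p)) (hX (hf.mem q))
      (fun he => hp (hf.inj he).symm) (fun he => hq (hf.inj he).symm) (fun he => hpq (hf.inj he))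
      hct
  have ext' : ∀ p q : Fin 5, f p ∈ T → f q ∈ T →
      (∀ i : Fin 5, i ≠ 0 → i ≠ p → i ≠ q → f i ∉ T) → T = {f 0, f p, f q} := by
    intro p q hp hq hi
    ext u
    simp only [mem_insert, mem_singleton]
    constructor
    · intro hu
      have h1 := hT hu
      rw [← hf.eq c5] at h1
      obtain ⟨i, _, rfl⟩ := Finset.mem_image.mp h1
      by_contra hc
      rw [not_or, not_or] at hc
      exact hi i (fun e => hc.1 (by rw [e])) (fun e => hc.2.1 (by rw [e]))
        (fun e => hc.2.2 (by rw [e])) hu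
    · rintro (rfl | rfl | rfl)
      · exact h0
      · exact hp
      · exact hq
  by_cases h1 : f 1 ∈ T
  · have h2 : f 2 ∉ T := h12.mp h1
    by_cases h3 : f 3 ∈ T
    · have h4 : f 4 ∉ T := h34.mp h3
      refine ⟨1, 3, Or.inl rfl, Or.inl rfl, key 1 3 (by decide) (by decide) (by decide)
        (ext' 1 3 h1 h3 ?_)⟩
      intro i i0 i1 i3
      fin_cases i <;> simp_all
    · have h4 : f 4 ∈ T := by
        by_contra h4
        exact h3 (h34.mpr h4)
      refine ⟨1, 4, Or.inl rfl, Or.inr rfl, key 1 4 (by decide) (by decide) (by decide)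
        (ext' 1 4 h1 h4 ?_)⟩
      intro i i0 i1 i3
      fin_cases i <;> simp_all
  · have h2 : f 2 ∈ T := by
      by_contra h2
      exact h1 (h12.mpr h2)
    by_cases h3 : f 3 ∈ T
    · have h4 : f 4 ∉ T := h34.mp h3
      refine ⟨2, 3, Or.inr rfl, Or.inl rfl, key 2 3 (by decide) (by decide) (by decide)
        (ext' 2 3 h2 h3 ?_)⟩
      intro i i0 i1 i3
      fin_cases i <;> simp_all
    · have h4 : f 4 ∈ T := by
        by_contra h4
        exact h3 (h34.mpr h4)
      refine ⟨2, 4, Or.inr rfl, Or.inr rfl, key 2 4 (by decide) (by decide) (by decide)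
        (ext' 2 4 h2 h4 ?_)⟩
      intro i i0 i1 i3
      fin_cases i <;> simp_all

/-- the trace of a free set on the other side has at most four vertices -/
theorem trace (h : RG U w r) (hU : U.card = 12) {X : Finset V} (hX : X ⊆ U) (c5 : X.card = 5)
    {x y : V} (hx : x ∈ X) (hy : y ∈ U \ X) {m : V → V} (hm : PM U w m) (m0 : m x = y)
    (mZ : ∀ u ∈ U \ X, u ≠ y → m u ∉ X) {Y : Finset V} (hY : Free U w r m Y) :
    (Y \ X).card ≤ 3 + (if y ∈ Y then 1 else 0) := by
  have my : m y = x := by rw [← m0, hm.invol]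
  have cZ : (U \ X).card = 7 := by rw [Finset.card_sdiff_of_subset hX, hU, c5]
  set P := (Y \ X).erase y with hP
  set Q := ((U \ X) \ Y).erase y with hQ
  have hle : P.card ≤ Q.card := by
    refine Finset.card_le_card_of_injOn m ?_ ?_
    · intro u hu
      have hu' : u ∈ P := hu
      rw [hP, mem_erase, mem_sdiff] at hu'
      obtain ⟨hu1, hu2, hu3⟩ := hu'
      have huU := hY.sub hu2
      have h1 := mZ u (mem_sdiff.mpr ⟨huU, hu3⟩) hu1
      have h2 := hY.out u hu2
      have h3 := hm.mem h huU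
      show m u ∈ Q
      rw [hQ, mem_erase, mem_sdiff, mem_sdiff]
      refine ⟨?_, ⟨h3, h1⟩, h2⟩
      intro he
      have h4 : u = x := by rw [← hm.invol u, he, my]
      rw [h4] at hu3
      exact hu3 hx
    · intro u _ v _ huv
      have : m (m u) = m (m v) := by rw [huv]
      rwa [hm.invol, hm.invol] at this
  have hsum : P.card + Q.card = 6 := by
    have hd : Disjoint P Q := by
      rw [Finset.disjoint_left]
      intro u hu hu'
      rw [hP, mem_erase, mem_sdiff] at hu
      rw [hQ, mem_erase, mem_sdiff] at hu'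
      exact hu'.2.2 hu.2.1
    rw [← Finset.card_union_of_disjoint hd]
    have he : P ∪ Q = (U \ X).erase y := by
      ext u
      have := @hY.sub u
      simp only [hP, hQ, mem_union, mem_erase, mem_sdiff]
      tauto
    rw [he, Finset.card_erase_of_mem hy, cZ]
  have hPY : (Y \ X).card = P.card + (if y ∈ Y then 1 else 0) := by
    by_cases hyY : y ∈ Y
    · have h1 : y ∈ Y \ X := mem_sdiff.mpr ⟨hyY, (mem_sdiff.mp hy).2⟩
      rw [hP, if_pos hyY, Finset.card_erase_of_mem h1]
      have : 0 < (Y \ X).card := Finset.card_pos.mpr ⟨y, h1⟩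
      omega
    · rw [hP, if_neg hyY, Finset.erase_eq_of_notMem (fun h1 => hyY (mem_sdiff.mp h1).1), add_zero]
  omega

theorem meet (h : RG U w r) (nt : NT U w r) (hU : U.card = 12) {X : Finset V} (hX : X ⊆ U)
    (c5 : X.card = 5) (tX : ct w X = r + 2) {f : Fin 5 → V} (hf : Fr X f) {y : V}
    (hy : y ∈ U \ X) (hxy : w (f 0) y ≠ 0) {m : V → V} (hm : PM U w m) (m0 : m (f 0) = y)
    (m1 : m (f 1) = f 2) (m3 : m (f 3) = f 4) (mZ : ∀ u ∈ U \ X, u ≠ y → m u ∉ X)
    {Y : Finset V} (hY : Free U w r m Y) :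
    (∃ p q : Fin 5, (p = 1 ∨ p = 2) ∧ (q = 3 ∨ q = 4) ∧
      w (f 0) (f p) + w (f 0) (f q) + w (f p) (f q) + 1 = r) ∨
    (∃ t : Fin 5, t ≠ 0 ∧ ∃ B, B ⊆ U \ X ∧ B.card = 4 ∧ y ∈ B ∧
      bt w (X.erase (f t)) B ≤ 1) := by
  have hk : (X ∩ Y).card = (if f 0 ∈ Y then 1 else 0) + (if f 1 ∈ Y then 1 else 0)
      + (if f 2 ∈ Y then 1 else 0) + (if f 3 ∈ Y then 1 else 0) + (if f 4 ∈ Y then 1 else 0) := by
    rw [← Finset.filter_mem_eq_inter, Finset.card_filter, hf.sum c5]
  have n12 : ¬ (f 1 ∈ Y ∧ f 2 ∈ Y) := by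
    rintro ⟨h1, h2⟩
    have := hY.out _ h1
    rw [m1] at this
    exact this h2
  have n34 : ¬ (f 3 ∈ Y ∧ f 4 ∈ Y) := by
    rintro ⟨h1, h2⟩
    have := hY.out _ h1
    rw [m3] at this
    exact this h2
  have n0 : f 0 ∈ Y → y ∉ Y := by
    intro h1
    have := hY.out _ h1
    rwa [m0] at this
  have htr := trace h hU hX c5 (hf.mem 0) hy hm m0 mZ hY
  have hYs : (Y \ X).card + (X ∩ Y).card = 5 := by
    rw [Finset.inter_comm, Finset.card_sdiff_add_card_inter, hY.card]
  have hXs : (X \ Y).card + (X ∩ Y).card = 5 := by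
    rw [Finset.card_sdiff_add_card_inter, c5]
  have hun := Finset.card_union_add_card_inter X Y
  have hsubi : X ∩ Y ⊆ U := Finset.inter_subset_left.trans hX
  have hsubu : X ∪ Y ⊆ U := Finset.union_subset hX hY.sub
  have hYcard := hY.card
  have hYct := hY.cut
  have hk3 : (X ∩ Y).card ≤ 3 := by
    rw [hk]
    split_ifs <;> first | omega | (exfalso; tauto)
  have hk1 : 1 ≤ (X ∩ Y).card := by
    by_contra hlt
    have : (if y ∈ Y then 1 else 0) ≤ 1 := by split_ifs <;> omega
    omega
  obtain ⟨k, hkk⟩ : ∃ k, (X ∩ Y).card = k := ⟨_, rfl⟩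
  rw [hkk] at hk3 hk1
  interval_cases k
  · -- one common vertex
    right
    have hyY : y ∈ Y := by
      by_contra hc
      rw [if_neg hc] at htr
      omega
    have h0 : f 0 ∉ Y := fun h0 => n0 h0 hyY
    obtain ⟨u, hu⟩ : (X ∩ Y).Nonempty := by
      rw [← Finset.card_pos]
      omega
    have huX := (mem_inter.mp hu).1
    have huY := (mem_inter.mp hu).2
    obtain ⟨t, ht⟩ : ∃ t, u = f t := by
      rcases hf.ex c5 huX with e | e | e | e | e
      exacts [⟨0, e⟩, ⟨1, e⟩, ⟨2, e⟩, ⟨3, e⟩, ⟨4, e⟩]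
    have hXY : X ∩ Y = {f t} := by
      obtain ⟨v, hv⟩ := Finset.card_eq_one.mp hkk
      rw [hv] at hu ⊢
      rw [mem_singleton] at hu
      rw [← hu, ht]
    have he : X.erase (f t) = X \ Y := by
      ext v
      rw [mem_erase, mem_sdiff]
      constructor
      · rintro ⟨hv1, hv2⟩
        refine ⟨hv2, fun hv3 => hv1 ?_⟩
        have : v ∈ X ∩ Y := mem_inter.mpr ⟨hv2, hv3⟩
        rwa [hXY, mem_singleton] at this
      · rintro ⟨hv1, hv2⟩
        refine ⟨?_, hv1⟩
        rintro rfl
        rw [ht] at huY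
        exact hv2 huY
    refine ⟨t, ?_, Y \ X, ?_, by omega, mem_sdiff.mpr ⟨hyY, (mem_sdiff.mp hy).2⟩, ?_⟩
    · rintro rfl
      rw [ht] at huY
      exact h0 huY
    · intro v hv
      rw [mem_sdiff] at hv ⊢
      exact ⟨hY.sub hv.1, hv.2⟩
    · rw [he]
      have hs := submod w h.symm X Y
      have h1 := cut_one h hsubi hkk
      have h2 := cut_ge h nt hU hsubu ⟨4, by omega⟩ (by omega) (by omega)
      omega
  · -- two common vertices
    left
    have hs := submod w h.symm X (U \ Y)
    have e1 : X ∩ (U \ Y) = X \ Y := by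
      ext v
      have := @hX v
      simp only [mem_inter, mem_sdiff]
      tauto
    have e2 : U \ (X ∪ (U \ Y)) = Y \ X := by
      ext v
      have := @hY.sub v
      simp only [mem_union, mem_sdiff]
      tauto
    have e3 : X \ (U \ Y) = X ∩ Y := by
      ext v
      have := @hX v
      simp only [mem_inter, mem_sdiff]
      tauto
    have hsub2 : X ∪ (U \ Y) ⊆ U := Finset.union_subset hX Finset.sdiff_subset
    have h1 := h.ct_compl hY.sub
    have h2 := h.ct_compl hsub2
    rw [e2] at h2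
    rw [e1, e3] at hs
    have h3 := cut_ge h nt hU (X := X \ Y) (Finset.sdiff_subset.trans hX) ⟨1, by omega⟩ (by omega)
      (by omega)
    have h4 := cut_ge h nt hU (X := Y \ X) (Finset.sdiff_subset.trans hY.sub) ⟨1, by omega⟩
      (by omega) (by omega)
    have h5 : ct w (X \ Y) = r + 2 := by omega
    have h6 : bt w (X ∩ Y) ((U \ Y) \ X) = 0 := by omega
    have h0 : f 0 ∉ Y := by
      intro h0
      apply hxy
      rw [bt_eq_zero] at h6
      exact h6 _ (mem_inter.mpr ⟨hf.mem 0, h0⟩) _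
        (mem_sdiff.mpr ⟨mem_sdiff.mpr ⟨(mem_sdiff.mp hy).1, n0 h0⟩, (mem_sdiff.mp hy).2⟩)
    have ha : f 1 ∈ Y ↔ f 2 ∉ Y := by
      constructor
      · exact fun ha hb => n12 ⟨ha, hb⟩
      · intro hb
        by_contra ha
        rw [hkk, if_neg h0, if_neg ha, if_neg hb] at hk
        split_ifs at hk <;> first | omega | tauto
    have hb : f 3 ∈ Y ↔ f 4 ∉ Y := by
      constructor
      · exact fun ha hb => n34 ⟨ha, hb⟩
      · intro hb
        by_contra ha
        rw [hkk, if_neg h0, if_neg ha, if_neg hb] at hk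
        split_ifs at hk <;> first | omega | tauto
    refine pick h hX c5 hf (T := X \ Y) Finset.sdiff_subset (mem_sdiff.mpr ⟨hf.mem 0, h0⟩) ?_ ?_ h5
    · have := hf.mem 1
      have := hf.mem 2
      simp only [mem_sdiff]
      tauto
    · have := hf.mem 3
      have := hf.mem 4
      simp only [mem_sdiff]
      tauto
  · -- three common vertices
    left
    have hs := submod w h.symm X Y
    have h3 := cut_ge h nt hU hsubi ⟨1, by omega⟩ (by omega) (by omega)
    have h4 := cut_ge h nt hU hsubu ⟨3, by omega⟩ (by omega) (by omega)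
    have h5 : ct w (X ∩ Y) = r + 2 := by omega
    rw [hkk] at hk
    have h0 : f 0 ∈ Y := by
      by_contra h0
      rw [if_neg h0] at hk
      split_ifs at hk <;> first | omega | tauto
    have ha : f 1 ∈ Y ↔ f 2 ∉ Y := by
      constructor
      · exact fun ha hb => n12 ⟨ha, hb⟩
      · intro hb
        by_contra ha
        rw [if_pos h0, if_neg ha, if_neg hb] at hk
        split_ifs at hk <;> first | omega | tauto
    have hb : f 3 ∈ Y ↔ f 4 ∉ Y := by
      constructor
      · exact fun ha hb => n34 ⟨ha, hb⟩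
      · intro hb
        by_contra ha
        rw [if_pos h0, if_neg ha, if_neg hb] at hk
        split_ifs at hk <;> first | omega | tauto
    refine pick h hX c5 hf (T := X ∩ Y) Finset.inter_subset_left (mem_inter.mpr ⟨hf.mem 0, h0⟩)
      ?_ ?_ h5
    · have := hf.mem 1
      have := hf.mem 2
      simp only [mem_inter]
      tauto
    · have := hf.mem 3
      have := hf.mem 4
      simp only [mem_inter]
      tauto

end Pool.Agent.Helper89.RG12
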