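import Mathlib

set_option autoImplicit false

/-!
The inside of a set of five vertices with a cut of size `r + 2`.
-/

namespace Pool.Agent.Helper89.RG12

theorem loc (W : Fin 5 → Fin 5 → ℕ) (z : Fin 5 → ℕ) (r : ℕ) (hs : ∀ i j, W i j = W j i)
    (hi : ∀ i, W i i = 0) (hd : ∀ i, W i 0 + W i 1 + W i 2 + W i 3 + W i 4 + z i = r)
    (hz : ∀ i, 1 ≤ z i) (hz0 : 2 ≤ z 0) (hsum : z 0 + z 1 + z 2 + z 3 + z 4 = r + 2)
    (h12 : W 1 2 ≠ 0) (h34 : W 3 4 ≠ 0) :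
    ∃ σ : Fin 5 → Fin 5, Function.Injective σ ∧ σ 0 = 0 ∧ W (σ 1) (σ 2) ≠ 0 ∧
      W (σ 3) (σ 4) ≠ 0 ∧ ∀ p q : Fin 5, (p = 1 ∨ p = 2) → (q = 3 ∨ q = 4) →
        W 0 (σ p) + W 0 (σ q) + W (σ p) (σ q) + 1 ≠ r := by
  have d0 := hd 0
  have d1 := hd 1
  have d2 := hd 2
  have d3 := hd 3
  have d4 := hd 4
  have z1 := hz 1
  have z2 := hz 2
  have z3 := hz 3
  have z4 := hz 4
  rw [hi] at d0 d1 d2 d3 d4
  rw [hs 1 0] at d1
  rw [hs 2 0, hs 2 1] at d2
  rw [hs 3 0, hs 3 1, hs 3 2] at d3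
  rw [hs 4 0, hs 4 1, hs 4 2, hs 4 3] at d4
  have s21 := hs 2 1
  have s31 := hs 3 1
  have s32 := hs 3 2
  have s41 := hs 4 1
  have s42 := hs 4 2
  have s43 := hs 4 3
  by_cases hno : ∀ p q : Fin 5, (p = 1 ∨ p = 2) → (q = 3 ∨ q = 4) →
      W 0 p + W 0 q + W p q + 1 ≠ r
  · exact ⟨id, Function.injective_id, rfl, h12, h34, hno⟩
  · push Not at hno
    obtain ⟨p, q, hp, hq, hpq⟩ := hno
    rcases hp with rfl | rfl <;> rcases hq with rfl | rfl
    · refine ⟨![0, 2, 4, 1, 3], by decide, rfl, ?_, ?_, ?_⟩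
      · show W 2 4 ≠ 0
        omega
      · show W 1 3 ≠ 0
        omega
      · rintro p q (rfl | rfl) (rfl | rfl)
        · show W 0 2 + W 0 1 + W 2 1 + 1 ≠ r
          omega
        · show W 0 2 + W 0 3 + W 2 3 + 1 ≠ r
          omega
        · show W 0 4 + W 0 1 + W 4 1 + 1 ≠ r
          omega
        · show W 0 4 + W 0 3 + W 4 3 + 1 ≠ r
          omega
    · refine ⟨![0, 2, 3, 1, 4], by decide, rfl, ?_, ?_, ?_⟩
      · show W 2 3 ≠ 0
        omega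
      · show W 1 4 ≠ 0
        omega
      · rintro p q (rfl | rfl) (rfl | rfl)
        · show W 0 2 + W 0 1 + W 2 1 + 1 ≠ r
          omega
        · show W 0 2 + W 0 4 + W 2 4 + 1 ≠ r
          omega
        · show W 0 3 + W 0 1 + W 3 1 + 1 ≠ r
          omega
        · show W 0 3 + W 0 4 + W 3 4 + 1 ≠ r
          omega
    · refine ⟨![0, 1, 4, 2, 3], by decide, rfl, ?_, ?_, ?_⟩
      · show W 1 4 ≠ 0
        omega
      · show W 2 3 ≠ 0
        omega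
      · rintro p q (rfl | rfl) (rfl | rfl)
        · show W 0 1 + W 0 2 + W 1 2 + 1 ≠ r
          omega
        · show W 0 1 + W 0 3 + W 1 3 + 1 ≠ r
          omega
        · show W 0 4 + W 0 2 + W 4 2 + 1 ≠ r
          omega
        · show W 0 4 + W 0 3 + W 4 3 + 1 ≠ r
          omega
    · refine ⟨![0, 1, 3, 2, 4], by decide, rfl, ?_, ?_, ?_⟩
      · show W 1 3 ≠ 0
        omega
      · show W 2 4 ≠ 0
        omega
      · rintro p q (rfl | rfl) (rfl | rfl)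
        · show W 0 1 + W 0 2 + W 1 2 + 1 ≠ r
          omega
        · show W 0 1 + W 0 4 + W 1 4 + 1 ≠ r
          omega
        · show W 0 3 + W 0 2 + W 3 2 + 1 ≠ r
          omega
        · show W 0 3 + W 0 4 + W 3 4 + 1 ≠ r
          omega

end Pool.Agent.Helper89.RG12
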