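import Mathlib
import Pool.Agent.Helper35.RG3.XPM
import Pool.Agent.Helper89.RG12.A

set_option autoImplicit false
set_option linter.unusedSectionVars false

/-!
Twelve vertices: perfect matchings of the other side minus a vertex (Tutte).
-/

namespace Pool.Agent.Helper89.RG12

open Finset Pool.Agent.Helper37.RG3 Pool.Agent.Helper35.RG3

variable {V : Type} [Fintype V] [DecidableEq V] {U : Finset V} {w : V → V → ℕ} {r : ℕ}

theorem card_le_bt {A B : Finset V} {m : V → V} (hA : ∀ u ∈ A, m u ∈ B ∧ w u (m u) ≠ 0) :
    A.card ≤ bt w A B := by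
  rw [Finset.card_eq_sum_ones]
  unfold bt
  refine Finset.sum_le_sum fun u hu => ?_
  obtain ⟨h1, h2⟩ := hA u hu
  have h3 : w u (m u) ≤ ∑ v ∈ B, w u v :=
    Finset.single_le_sum (f := fun v => w u v) (fun v _ => Nat.zero_le _) h1
  omega

theorem gU_adj' (hs : ∀ u v, w u v = w v u) (hi : ∀ u, w u u = 0) {K : Finset V}
    (a b : {v // v ∈ K}) : (gU K w).Adj a b ↔ w a.1 b.1 ≠ 0 := by
  unfold gU
  rw [SimpleGraph.fromRel_adj]
  constructor
  · rintro ⟨-, h1 | h1⟩
    · exact h1
    · rw [hs]; exact h1
  · intro h1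
    refine ⟨?_, Or.inl h1⟩
    rintro rfl
    exact h1 (hi _)

/-- The final count. -/
theorem final {X Q D : Finset V} (h : RG U w r) {m : V → V} (hm : PM U w m) (hX : X ⊆ U)
    (c5 : X.card = 5) (hfree : ∀ u ∈ X, m u ∉ X) (hQU : Q ⊆ U) (cQ : Q.card = 3)
    (cD : D.card = 4) (hU' : ∀ u ∈ U, u ∈ X ∨ u ∈ Q ∨ u ∈ D) (hXd : Disjoint X Q)
    (hXQ : bt w X Q = 1) (hQQ : bt w Q Q = 0) : False := by
  have minj : Function.Injective m := fun a b hab => by
    rw [← hm.invol a, hab, hm.invol]
  have hA : (X.filter fun u => m u ∈ Q).card ≤ 1 := by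
    have h1 : (X.filter fun u => m u ∈ Q).card ≤ bt w (X.filter fun u => m u ∈ Q) Q := by
      refine card_le_bt (m := m) fun u hu => ?_
      rw [mem_filter] at hu
      exact ⟨hu.2, hm.adj u (hX hu.1)⟩
    have h2 := bt_mono w (Finset.filter_subset (fun u => m u ∈ Q) X) (Finset.Subset.refl Q)
    omega
  have hB : 4 ≤ (X.filter fun u => m u ∉ Q).card := by
    have := Finset.card_filter_add_card_filter_not (s := X) (fun x => m x ∈ Q)
    omega
  have himg : (X.filter fun u => m u ∉ Q).image m = D := by
    apply Finset.eq_of_subset_of_card_le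
    · intro v hv
      obtain ⟨u, hu, rfl⟩ := Finset.mem_image.mp hv
      rw [mem_filter] at hu
      rcases hU' (m u) (hm.mem h (hX hu.1)) with h1 | h1 | h1
      · exact absurd h1 (hfree u hu.1)
      · exact absurd h1 hu.2
      · exact h1
    · rw [Finset.card_image_of_injective _ minj]
      omega
  have hD : ∀ d ∈ D, m d ∈ X := by
    intro d hd
    rw [← himg] at hd
    obtain ⟨u, hu, rfl⟩ := Finset.mem_image.mp hd
    rw [hm.invol]
    exact (mem_filter.mp hu).1
  have h1 : Q.card ≤ bt w Q X := by
    refine card_le_bt (m := m) fun u hu => ?_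
    have hadj := hm.adj u (hQU hu)
    refine ⟨?_, hadj⟩
    rcases hU' (m u) (hm.mem h (hQU hu)) with h1 | h1 | h1
    · exact h1
    · exfalso
      rw [bt_eq_zero] at hQQ
      exact hadj (hQQ u hu (m u) h1)
    · have := hD _ h1
      rw [hm.invol] at this
      exact absurd hu (Finset.disjoint_left.mp hXd this)
  rw [bt_comm w h.symm] at hXQ
  omega

theorem tut (h : RG U w r) (hr : 0 < r) (cn : CN U w) (nt : NT U w r) (hU : U.card = 12)
    {X : Finset V} (hX : X ⊆ U) (c5 : X.card = 5) (tX : ct w X = r + 2) {m : V → V}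
    (hm : PM U w m) (hfree : ∀ u ∈ X, m u ∉ X) {x y : V} (hx : x ∈ X) (hy : y ∈ U \ X)
    (hxy : w x y ≠ 0) : ∃ n, PM ((U \ X).erase y) w n := by
  classical
  set K := (U \ X).erase y with hK
  have cZ : (U \ X).card = 7 := by rw [Finset.card_sdiff_of_subset hX, hU, c5]
  have cK : K.card = 6 := by rw [hK, Finset.card_erase_of_mem hy, cZ]
  have hKU : K ⊆ U := (Finset.erase_subset _ _).trans Finset.sdiff_subset
  have key : ∃ M : (gU K w).Subgraph, M.IsPerfectMatching := by
    rw [SimpleGraph.tutte]
    intro S hS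
    unfold SimpleGraph.IsTutteViolator at hS
    set G' := ((⊤ : (gU K w).Subgraph).deleteVerts S).coe with hG'
    have hfin : (G'.oddComponents).Finite := Set.toFinite _
    set O : Finset G'.ConnectedComponent := hfin.toFinset with hO
    have hOc : G'.oddComponents.ncard = O.card := by
      rw [hO, ← Set.ncard_eq_toFinset_card _ hfin]
    have hmemO : ∀ C, C ∈ O ↔ Odd C.supp.ncard := by
      intro C
      rw [hO, Set.Finite.mem_toFinset]
      rfl
    have hsub : ∀ C, KK K w S C ⊆ K := fun C v hv => (mem_KK.mp hv).1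
    set T := SS K S with hT
    have hTK : T ⊆ K := fun v hv => (mem_SS.mp hv).1
    have hKT : ∀ C, Disjoint (KK K w S C) T := by
      intro C
      rw [Finset.disjoint_left]
      intro v hv hv'
      obtain ⟨h1, h2⟩ := mem_KK.mp hv
      obtain ⟨h3, h4⟩ := mem_SS.mp hv'
      exact h2.not_mem h4
    -- parity
    have hpar : T.card + 2 ≤ O.card := by
      have h1 := SimpleGraph.odd_ncard_oddComponents (G := G')
      rw [hOc] at h1
      have h2 : Nat.card ((⊤ : (gU K w).Subgraph).deleteVerts S).verts + S.ncard = 6 := by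
        have e1 : ((⊤ : (gU K w).Subgraph).deleteVerts S).verts = Set.univ \ S := by
          simp
        rw [e1, Nat.card_coe_set_eq, Set.ncard_sdiff_add_ncard_of_subset (Set.subset_univ S),
          Set.ncard_univ, Nat.card_eq_fintype_card, Fintype.card_coe, cK]
      rw [hOc] at hS
      rw [hT, card_SS]
      have h3 : ¬ O.card = S.ncard + 1 := by
        intro h3
        rw [h3] at h1
        have h4 : (S.ncard + 1) % 2 = 1 ↔
            (Nat.card ((⊤ : (gU K w).Subgraph).deleteVerts S).verts) % 2 = 1 := by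
          rw [← Nat.odd_iff, ← Nat.odd_iff]
          exact h1
        omega
      omega
    -- edges inside `K`
    have hcomp : ∀ C, ∀ a ∈ KK K w S C, ∀ b ∈ K, b ∉ T → w a b ≠ 0 → b ∈ KK K w S C := by
      intro C a ha b hb hbT hne
      obtain ⟨haK, haC⟩ := mem_KK.mp ha
      have hadj : (gU K w).Adj ⟨a, haK⟩ ⟨b, hb⟩ := (gU_adj' h.symm h.irr _ _).mpr hne
      have hbS : (⟨b, hb⟩ : {v // v ∈ K}) ∉ S := fun hbS => hbT (mem_SS.mpr ⟨hb, hbS⟩)
      exact mem_KK.mpr ⟨hb, haC.adj hadj hbS⟩
    have hdisj : ∀ C C', C ≠ C' → Disjoint (KK K w S C) (KK K w S C') := by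
      intro C C' hne
      rw [Finset.disjoint_left]
      intro v hv hv'
      obtain ⟨h1, h2, h3⟩ := mem_KK.mp hv
      obtain ⟨h1', h2', h3'⟩ := mem_KK.mp hv'
      exact hne (h3.symm.trans h3')
    set D := O.biUnion fun C => KK K w S C with hD
    have hDK : D ⊆ K := by
      intro v hv
      obtain ⟨C, _, hC⟩ := Finset.mem_biUnion.mp hv
      exact hsub C hC
    set Q := insert y T with hQ
    have hyK : y ∉ K := by simp [hK]
    have hyT : y ∉ T := fun h1 => hyK (hTK h1)
    have hyU : y ∈ U := (mem_sdiff.mp hy).1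
    have hyX : y ∉ X := (mem_sdiff.mp hy).2
    have cQ : Q.card = T.card + 1 := Finset.card_insert_of_notMem hyT
    have hQU : Q ⊆ U := Finset.insert_subset hyU (hTK.trans hKU)
    have hKX : ∀ v ∈ K, v ∉ X := fun v hv => (mem_sdiff.mp (mem_erase.mp hv).2).2
    have hXQd : Disjoint X Q := by
      rw [Finset.disjoint_left]
      intro v hv hv'
      rcases Finset.mem_insert.mp hv' with rfl | h1
      · exact hyX hv
      · exact hKX v (hTK h1) hv
    set N := X ∪ Q with hN
    have cN : N.card = T.card + 6 := by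
      rw [hN, Finset.card_union_of_disjoint hXQd, c5, cQ]
      omega
    have hNU : N ⊆ U := Finset.union_subset hX hQU
    set E := U \ (N ∪ D) with hE
    have hDT : Disjoint D T := by
      rw [hD, Finset.disjoint_biUnion_left]
      exact fun C _ => hKT C
    have hND : Disjoint N D := by
      rw [Finset.disjoint_left]
      intro v hv hv'
      rcases Finset.mem_union.mp hv with h1 | h1
      · exact hKX v (hDK hv') h1
      · rcases Finset.mem_insert.mp h1 with rfl | h2
        · exact hyK (hDK hv')
        · exact Finset.disjoint_left.mp hDT hv' h2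
    have hEK : ∀ v ∈ E, v ∈ K ∧ v ∉ T ∧ v ∉ D := by
      intro v hv
      rw [hE, mem_sdiff, mem_union, not_or, hN, mem_union, not_or, hQ, mem_insert, not_or] at hv
      obtain ⟨h1, ⟨h2, h3, h4⟩, h5⟩ := hv
      exact ⟨mem_erase.mpr ⟨h3, mem_sdiff.mpr ⟨h1, h2⟩⟩, h4, h5⟩
    have hDE : bt w D E = 0 := by
      rw [bt_eq_zero]
      intro a ha b hb
      by_contra hne
      obtain ⟨C, hCO, hC⟩ := Finset.mem_biUnion.mp ha
      obtain ⟨h1, h2, h3⟩ := hEK b hb
      exact h3 (Finset.mem_biUnion.mpr ⟨C, hCO, hcomp C a hC b h1 h2 hne⟩)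
    -- lower bound for the components
    have hlow : ∀ C ∈ O, r + (if 3 ≤ (KK K w S C).card then 1 else 0) ≤ bt w (KK K w S C) N := by
      intro C hC
      have hodd : Odd (KK K w S C).card := by rw [card_KK]; exact (hmemO C).mp hC
      have hsU : KK K w S C ⊆ U := (hsub C).trans hKU
      have h1 : r + (if 3 ≤ (KK K w S C).card then 1 else 0) ≤ ct w (KK K w S C) := by
        split_ifs with h3
        · exact nt _ hsU hodd h3 (by
            have := Finset.card_le_card (hsub C)
            omega)
        · exact h.cut _ hsU hodd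
      refine h1.trans ?_
      unfold ct bt
      refine Finset.sum_le_sum fun a ha => ?_
      rw [← Finset.sum_subset (s₁ := (KK K w S C)ᶜ ∩ N) Finset.inter_subset_left ?_]
      · exact Finset.sum_le_sum_of_subset Finset.inter_subset_right
      · intro b hb hb'
        by_contra hne
        have hbU : b ∈ U := h.supp b a (by rw [h.symm]; exact hne)
        have hbN : b ∉ N := fun hbN => hb' (Finset.mem_inter.mpr ⟨hb, hbN⟩)
        rw [hN, mem_union, not_or, hQ, mem_insert, not_or] at hbN
        obtain ⟨h2, h3, h4⟩ := hbN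
        exact (Finset.mem_compl.mp hb)
          (hcomp C a ha b (mem_erase.mpr ⟨h3, mem_sdiff.mpr ⟨hbU, h2⟩⟩) h4 hne)
    have hsum : ∑ C ∈ O, (r + (if 3 ≤ (KK K w S C).card then 1 else 0)) ≤ bt w D N := by
      refine (Finset.sum_le_sum hlow).trans (le_of_eq ?_)
      rw [hD]
      unfold bt
      rw [Finset.sum_biUnion]
      intro C _ C' _ hne
      exact hdisj C C' hne
    rw [Finset.sum_add_distrib, Finset.sum_const, smul_eq_mul] at hsum
    -- degrees
    have hdeg : bt w N N + bt w N D + bt w N E = r * (T.card + 6) := by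
      have h1 := h.bt_deg' hNU
      rw [cN] at h1
      rw [← h1]
      have e1 : U = N ∪ (D ∪ E) := by
        ext v
        have := @hNU v
        have := @hDK v
        have := @hKU v
        simp only [hE, mem_union, mem_sdiff]
        tauto
      have d1 : Disjoint D E := by
        rw [Finset.disjoint_left]
        intro v hv hv'
        exact (hEK v hv').2.2 hv
      have d2 : Disjoint N (D ∪ E) := by
        rw [Finset.disjoint_union_right]
        refine ⟨hND, ?_⟩
        rw [Finset.disjoint_left]
        intro v hv hv'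
        rw [hE, mem_sdiff, mem_union, not_or] at hv'
        exact hv'.2.1 hv
      conv_rhs => rw [e1]
      rw [bt_union_right w N d2, bt_union_right w N d1]
      ring
    have hNN : bt w N N = bt w X X + 2 * bt w X Q + bt w Q Q := by
      rw [hN, bt_union_left w hXQd, bt_union_right w X hXQd, bt_union_right w Q hXQd,
        bt_comm w h.symm Q X]
      ring
    have hXX : bt w X X + (r + 2) = r * 5 := by
      have := h.deg_sum hX
      rw [tX, c5] at this
      exact this
    have hxQ : 1 ≤ bt w X Q := by
      have : w x y ≤ bt w X Q := le_bt w hx (by simp [hQ])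
      omega
    have hsymm : bt w D N = bt w N D := bt_comm w h.symm D N
    have hmul : r * (T.card + 6) = r * T.card + r * 6 := by ring
    have hmul2 : O.card * r = r * O.card := by ring
    obtain ⟨j, hj⟩ := Nat.exists_eq_add_of_le hpar
    have hmul3 : r * O.card = r * T.card + r * 2 + r * j := by rw [hj]; ring
    have hj0 : j = 0 := by
      by_contra hj0
      have : r ≤ r * j := Nat.le_mul_of_pos_right r (Nat.pos_of_ne_zero hj0)
      omega
    subst hj0
    have hXQ1 : bt w X Q = 1 := by omega
    have hQQ : bt w Q Q = 0 := by omega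
    have hNE : bt w N E = 0 := by omega
    have hns : ∑ C ∈ O, (if 3 ≤ (KK K w S C).card then 1 else 0) = 0 := by omega
    have hone : ∀ C ∈ O, (KK K w S C).card = 1 := by
      intro C hC
      have h1 := (Finset.sum_eq_zero_iff.mp hns) C hC
      have hodd : Odd (KK K w S C).card := by rw [card_KK]; exact (hmemO C).mp hC
      obtain ⟨k, hk⟩ := hodd
      split_ifs at h1 with h3
      omega
    -- no other vertices
    have hE0 : E = ∅ := by
      by_contra hne
      have hEU : E ⊆ U := Finset.sdiff_subset
      have hEne : E ≠ U := by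
        intro he
        have : y ∈ E := by rw [he]; exact hyU
        exact hyK (hEK y this).1
      obtain ⟨v, hv⟩ := cn E hEU (Finset.nonempty_iff_ne_empty.mpr hne) hEne
      rw [mem_nb] at hv
      obtain ⟨hvE, s, hs, hsv⟩ := hv
      have hvU : v ∈ U := h.supp' hsv
      have hvs : w v s ≠ 0 := by rw [h.symm]; exact hsv
      rw [bt_eq_zero] at hNE hDE
      have hvN : v ∉ N := fun h1 => hvs (hNE v h1 s hs)
      have hvD : v ∉ D := fun h1 => hvs (hDE v h1 s hs)
      apply hvE
      rw [hE, mem_sdiff, mem_union, not_or]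
      exact ⟨hvU, hvN, hvD⟩
    have hcD : D.card = T.card + 2 := by
      rw [hD, Finset.card_biUnion (fun C _ C' _ hne => hdisj C C' hne),
        Finset.sum_congr rfl hone, Finset.sum_const, smul_eq_mul]
      omega
    have hU' : ∀ u ∈ U, u ∈ X ∨ u ∈ Q ∨ u ∈ D := by
      intro u hu
      by_contra hc
      have : u ∈ E := by
        rw [hE, mem_sdiff, mem_union, hN, mem_union]
        tauto
      rw [hE0] at this
      simp at this
    have hcK : T.card + D.card = 6 := by
      rw [← cK, ← Finset.card_union_of_disjoint hDT.symm]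
      congr 1
      ext u
      rw [mem_union]
      constructor
      · rintro (h1 | h1)
        · exact hTK h1
        · exact hDK h1
      · intro h1
        rcases hU' u (hKU h1) with h2 | h2 | h2
        · exact absurd h2 (hKX u h1)
        · rcases Finset.mem_insert.mp h2 with rfl | h3
          · exact absurd h1 hyK
          · exact Or.inl h3
        · exact Or.inr h2
    exact final h hm hX c5 hfree hQU (by omega) (by omega) hU' hXQd hXQ1 hQQ
  obtain ⟨M, hM1, hM2⟩ := key
  have hex : ∀ v, ∃! u, M.Adj v u := fun v => hM1 (hM2 v)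
  choose n hn hnu using hex
  have hnn : ∀ v, n (n v) = v := fun v => (hnu (n v) v (hn v).symm).symm
  refine ⟨fun v => if hv : v ∈ K then (n ⟨v, hv⟩).1 else v, ?_, ?_, ?_⟩
  · intro u
    by_cases hu : u ∈ K
    · have h1 : (n ⟨u, hu⟩).1 ∈ K := (n ⟨u, hu⟩).2
      simp only [hu, dif_pos, h1, Subtype.coe_eta, hnn]
    · simp only [hu, dif_neg, not_false_iff]
  · intro u hu
    simp only [hu, dif_neg, not_false_iff]
  · intro u hu
    simp only [hu, dif_pos]
    exact (gU_adj' h.symm h.irr _ _).mp (M.adj_sub (hn ⟨u, hu⟩))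

end Pool.Agent.Helper89.RG12
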