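import Mathlib
import Pool.Agent.Helper89.RG12.B
import Pool.Agent.Helper89.RG12.C
import Pool.Agent.Helper89.RG12.D

set_option autoImplicit false
set_option linter.unusedSectionVars false

/-!
Twelve vertices, at least four colours.
-/

namespace Pool.Agent.Helper89.RG12

open Finset Pool.Agent.Helper37.RG3

variable {V : Type} [Fintype V] [DecidableEq V] {U : Finset V} {w : V → V → ℕ} {r : ℕ}

/-- the perfect matching made of two edges inside `X`, an edge from `X` to the other side, and a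
matching of the rest of the other side -/
theorem build (h : RG U w r) (hr : 0 < r) (cn : CN U w) (nt : NT U w r) (hU : U.card = 12)
    {X : Finset V} (hX : X ⊆ U) (c5 : X.card = 5) (tX : ct w X = r + 2) {m : V → V}
    (hm : PM U w m) (hfree : ∀ u ∈ X, m u ∉ X) {f : Fin 5 → V} (hf : Fr X f)
    (h12 : w (f 1) (f 2) ≠ 0) (h34 : w (f 3) (f 4) ≠ 0) {y : V} (hy : y ∈ U \ X)
    {n : V → V} (hn : PM ((U \ X).erase y) w n) (hxy : w (f 0) y ≠ 0) :
    ∃ m', PM U w m' ∧ m' (f 0) = y ∧ m' (f 1) = f 2 ∧ m' (f 3) = f 4 ∧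
      ∀ u ∈ (U \ X).erase y, m' u = n u := by
  have fne : ∀ i j : Fin 5, i ≠ j → f i ≠ f j := fun i j hij he => hij (hf.inj he)
  have hyX : y ∉ X := (mem_sdiff.mp hy).2
  have fy : ∀ i, f i ≠ y := by
    intro i he
    exact hyX (he ▸ hf.mem i)
  have fK : ∀ i, f i ∉ (U \ X).erase y := by
    intro i he
    exact (mem_sdiff.mp (mem_erase.mp he).2).2 (hf.mem i)
  have d1 : Disjoint ({f 1, f 2} : Finset V) {f 3, f 4} := by
    rw [Finset.disjoint_left]
    intro v hv hv'
    simp only [mem_insert, mem_singleton] at hv hv'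
    rcases hv with rfl | rfl <;> rcases hv' with e | e <;> exact fne _ _ (by decide) e
  have d2 : Disjoint ({f 0, y} : Finset V) ({f 1, f 2} ∪ {f 3, f 4}) := by
    rw [Finset.disjoint_left]
    intro v hv hv'
    simp only [mem_insert, mem_singleton, mem_union] at hv hv'
    rcases hv with rfl | rfl
    · rcases hv' with (e | e) | (e | e) <;> exact fne _ _ (by decide) e
    · rcases hv' with (e | e) | (e | e) <;> exact fy _ e.symm
  have d3 : Disjoint ((U \ X).erase y) (({f 0, y} : Finset V) ∪ ({f 1, f 2} ∪ {f 3, f 4})) := by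
    rw [Finset.disjoint_left]
    intro v hv hv'
    simp only [mem_insert, mem_singleton, mem_union] at hv'
    rcases hv' with (e | e) | (e | e) | (e | e) <;> rw [e] at hv
    · exact fK 0 hv
    · simp at hv
    · exact fK 1 hv
    · exact fK 2 hv
    · exact fK 3 hv
    · exact fK 4 hv
  have p1 := pm_union d1 (pm_pair h.symm h12) (pm_pair h.symm h34)
  have p2 := pm_union d2 (pm_pair h.symm hxy) p1
  have p3 := pm_union d3 hn p2
  have e : (U \ X).erase y ∪ (({f 0, y} : Finset V) ∪ ({f 1, f 2} ∪ {f 3, f 4})) = U := by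
    ext v
    simp only [mem_union, mem_erase, mem_sdiff, mem_insert, mem_singleton]
    constructor
    · rintro (h1 | (h1 | h1) | (h1 | h1) | (h1 | h1))
      · exact h1.2.1
      · rw [h1]; exact hX (hf.mem 0)
      · rw [h1]; exact (mem_sdiff.mp hy).1
      · rw [h1]; exact hX (hf.mem 1)
      · rw [h1]; exact hX (hf.mem 2)
      · rw [h1]; exact hX (hf.mem 3)
      · rw [h1]; exact hX (hf.mem 4)
    · intro hv
      by_cases hvX : v ∈ X
      · rcases hf.ex c5 hvX with e | e | e | e | e <;> tauto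
      · tauto
  rw [e] at p3
  refine ⟨_, p3, ?_, ?_, ?_, ?_⟩
  · have h1 : f 0 ∈ ({f 0, y} : Finset V) := by simp
    simp only [fK 0, h1, if_true, if_false, Equiv.swap_apply_left]
  · have h1 : f 1 ∉ ({f 0, y} : Finset V) := by
      simp only [mem_insert, mem_singleton, not_or]
      exact ⟨fne _ _ (by decide), fy 1⟩
    have h2 : f 1 ∈ ({f 1, f 2} : Finset V) := by simp
    simp only [fK 1, h1, h2, if_true, if_false, Equiv.swap_apply_left]
  · have h1 : f 3 ∉ ({f 0, y} : Finset V) := by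
      simp only [mem_insert, mem_singleton, not_or]
      exact ⟨fne _ _ (by decide), fy 3⟩
    have h2 : f 3 ∉ ({f 1, f 2} : Finset V) := by
      simp only [mem_insert, mem_singleton, not_or]
      exact ⟨fne _ _ (by decide), fne _ _ (by decide)⟩
    simp only [fK 3, h1, h2, if_false, Equiv.swap_apply_left]
  · intro u hu
    simp only [hu, if_true]

theorem getB (h : RG U w r) (hr : 0 < r) (cn : CN U w) (nt : NT U w r) (bd : BD U w r)
    (hU : U.card = 12) {X : Finset V} (hX : X ⊆ U) (c5 : X.card = 5) (tX : ct w X = r + 2)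
    {m : V → V} (hm : PM U w m) (hfree : ∀ u ∈ X, m u ∉ X) {f : Fin 5 → V} (hf : Fr X f)
    (h12 : w (f 1) (f 2) ≠ 0) (h34 : w (f 3) (f 4) ≠ 0)
    (hno : ∀ p q : Fin 5, (p = 1 ∨ p = 2) → (q = 3 ∨ q = 4) →
      w (f 0) (f p) + w (f 0) (f q) + w (f p) (f q) + 1 ≠ r)
    {y : V} (hy : y ∈ U \ X) (hxy : w (f 0) y ≠ 0) :
    ∃ t : Fin 5, t ≠ 0 ∧ ∃ B, B ⊆ U \ X ∧ B.card = 4 ∧ y ∈ B ∧ bt w (X.erase (f t)) B ≤ 1 := by
  obtain ⟨n, hn⟩ := tut h hr cn nt hU hX c5 tX hm hfree (hf.mem 0) hy hxy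
  obtain ⟨m', hm', e0, e1, e3, e4⟩ :=
    build h hr cn nt hU hX c5 tX hm hfree hf h12 h34 hy hn hxy
  have hnK : ∀ u ∈ (U \ X).erase y, n u ∈ (U \ X).erase y := by
    intro u hu
    by_contra hc
    have h1 := hn.out (n u) hc
    rw [hn.invol] at h1
    rw [← h1] at hc
    exact hc hu
  obtain ⟨Y, hY⟩ := free_exists h nt bd hU hm'
  rcases meet h nt hU hX c5 tX hf hy hxy hm' e0 e1 e3 (by
    intro u hu huy
    have h1 : u ∈ (U \ X).erase y := mem_erase.mpr ⟨huy, hu⟩
    rw [e4 u h1]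
    exact (mem_sdiff.mp (mem_erase.mp (hnK u h1)).2).2) hY with ⟨p, q, hp, hq, hpq⟩ | hB
  · exact absurd hpq (hno p q hp hq)
  · exact hB

theorem only {X B : Finset V} {x y t : V} (hx : x ∈ X) (hxt : x ≠ t) (hy : y ∈ B)
    (hxy : w x y ≠ 0) (hB : bt w (X.erase t) B ≤ 1) {v u : V} (hv : v ∈ X) (hvt : v ≠ t)
    (hu : u ∈ B) (hvu : w v u ≠ 0) : v = x ∧ u = y := by
  by_cases hvx : v = x
  · refine ⟨hvx, ?_⟩
    by_contra huy
    have h1 : bt w {x} {y, u} ≤ bt w (X.erase t) B := by
      apply bt_mono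
      · intro z hz
        rw [mem_singleton] at hz
        rw [hz]
        exact mem_erase.mpr ⟨hxt, hx⟩
      · intro z hz
        rw [mem_insert, mem_singleton] at hz
        rcases hz with rfl | rfl
        · exact hy
        · exact hu
    rw [bt_singleton_left, Finset.sum_insert (by
      rw [mem_singleton]; exact fun e => huy e.symm), Finset.sum_singleton] at h1
    rw [hvx] at hvu
    omega
  · exfalso
    have h1 : bt w {x, v} B ≤ bt w (X.erase t) B := by
      apply bt_mono _ _ (Finset.Subset.refl B)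
      intro z hz
      rw [mem_insert, mem_singleton] at hz
      rcases hz with rfl | rfl
      · exact mem_erase.mpr ⟨hxt, hx⟩
      · exact mem_erase.mpr ⟨hvt, hv⟩
    have h2 : bt w {x, v} B = bt w {x} B + bt w {v} B := by
      rw [show ({x, v} : Finset V) = {x} ∪ {v} from rfl, bt_union_left]
      rw [Finset.disjoint_singleton]
      exact fun e => hvx e.symm
    have h3 : w x y ≤ bt w {x} B := le_bt w (by simp) hy
    have h4 : w v u ≤ bt w {v} B := le_bt w (by simp) hu
    omega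

theorem clash {X Z B B' : Finset V} {m : V → V} (minj : Function.Injective m) (c5 : X.card = 5)
    (cZ : Z.card = 7) (hmZ : ∀ u ∈ X, m u ∈ Z ∧ w u (m u) ≠ 0) {x y y' t t' : V} (hx : x ∈ X)
    (ht : t ∈ X) (ht' : t' ∈ X) (hxt : x ≠ t) (hxt' : x ≠ t') (hBZ : B ⊆ Z) (hBZ' : B' ⊆ Z)
    (cB : B.card = 4) (cB' : B'.card = 4) (hy : y ∈ B) (hy' : y' ∈ B') (hyy : y ≠ y')
    (hxy : w x y ≠ 0) (hxy' : w x y' ≠ 0) (hB : bt w (X.erase t) B ≤ 1)
    (hB' : bt w (X.erase t') B' ≤ 1) : False := by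
  set R := Z \ B with hR
  set R' := Z \ B' with hR'
  have cR : R.card = 3 := by rw [hR, Finset.card_sdiff_of_subset hBZ, cZ, cB]
  have cR' : R'.card = 3 := by rw [hR', Finset.card_sdiff_of_subset hBZ', cZ, cB']
  have hyR : y ∈ R' := by
    rw [hR', mem_sdiff]
    refine ⟨hBZ hy, fun h1 => hyy ?_⟩
    exact (only hx hxt' hy' hxy' hB' hx hxt' h1 hxy).2
  have hyR' : y' ∈ R := by
    rw [hR, mem_sdiff]
    refine ⟨hBZ' hy', fun h1 => hyy ?_⟩
    exact (only hx hxt hy hxy hB hx hxt h1 hxy').2.symm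
  have hyn : y ∉ R := fun h1 => (mem_sdiff.mp h1).2 hy
  have hyn' : y' ∉ R' := fun h1 => (mem_sdiff.mp h1).2 hy'
  -- images
  have i1 : ∀ v ∈ X, v ≠ t → m v ∈ R ∨ (v = x ∧ m v = y) := by
    intro v hv hvt
    by_cases h1 : m v ∈ B
    · exact Or.inr (only hx hxt hy hxy hB hv hvt h1 (hmZ v hv).2)
    · exact Or.inl (mem_sdiff.mpr ⟨(hmZ v hv).1, h1⟩)
  have i2 : ∀ v ∈ X, v ≠ t' → m v ∈ R' ∨ (v = x ∧ m v = y') := by
    intro v hv hvt
    by_cases h1 : m v ∈ B'
    · exact Or.inr (only hx hxt' hy' hxy' hB' hv hvt h1 (hmZ v hv).2)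
    · exact Or.inl (mem_sdiff.mpr ⟨(hmZ v hv).1, h1⟩)
  have hI1 : R ∩ R' ⊆ R.erase y' := by
    intro v hv
    rw [mem_inter] at hv
    refine mem_erase.mpr ⟨?_, hv.1⟩
    rintro rfl
    exact hyn' hv.2
  have hI2 : R ∩ R' ⊆ R'.erase y := by
    intro v hv
    rw [mem_inter] at hv
    refine mem_erase.mpr ⟨?_, hv.2⟩
    rintro rfl
    exact hyn hv.1
  have cE1 : (R.erase y').card = 2 := by rw [Finset.card_erase_of_mem hyR', cR]
  have cE2 : (R'.erase y).card = 2 := by rw [Finset.card_erase_of_mem hyR, cR']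
  by_cases htt : t = t'
  · -- the same vertex
    have h1 : (((X.erase t).erase x).image m).card ≤ (R ∩ R').card := by
      apply Finset.card_le_card
      intro v hv
      obtain ⟨u, hu, rfl⟩ := Finset.mem_image.mp hv
      rw [mem_erase, mem_erase] at hu
      obtain ⟨hux, hut, huX⟩ := hu
      rcases i1 u huX hut with h1 | h1
      · rcases i2 u huX (htt ▸ hut) with h2 | h2
        · exact mem_inter.mpr ⟨h1, h2⟩
        · exact absurd h2.1 hux
      · exact absurd h1.1 hux
    rw [Finset.card_image_of_injective _ minj, Finset.card_erase_of_mem (mem_erase.mpr ⟨hxt, hx⟩),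
      Finset.card_erase_of_mem ht, c5] at h1
    have h2 := Finset.card_le_card hI1
    omega
  · -- different vertices
    have h1 : ((((X.erase t).erase t').erase x).image m).card ≤ (R ∩ R').card := by
      apply Finset.card_le_card
      intro v hv
      obtain ⟨u, hu, rfl⟩ := Finset.mem_image.mp hv
      rw [mem_erase, mem_erase, mem_erase] at hu
      obtain ⟨hux, hut', hut, huX⟩ := hu
      rcases i1 u huX hut with h1 | h1
      · rcases i2 u huX hut' with h2 | h2
        · exact mem_inter.mpr ⟨h1, h2⟩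
        · exact absurd h2.1 hux
      · exact absurd h1.1 hux
    rw [Finset.card_image_of_injective _ minj,
      Finset.card_erase_of_mem (mem_erase.mpr ⟨hxt', mem_erase.mpr ⟨hxt, hx⟩⟩),
      Finset.card_erase_of_mem (mem_erase.mpr ⟨fun e => htt e.symm, ht'⟩),
      Finset.card_erase_of_mem ht, c5] at h1
    have e1 : R ∩ R' = R.erase y' := Finset.eq_of_subset_of_card_le hI1 (by omega)
    have e2 : R ∩ R' = R'.erase y := Finset.eq_of_subset_of_card_le hI2 (by omega)
    have sR : ∀ v ∈ R, v ∈ insert y (insert y' (R ∩ R')) := by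
      intro v hv
      by_cases hvy : v = y'
      · simp [hvy]
      · have : v ∈ R ∩ R' := by rw [e1]; exact mem_erase.mpr ⟨hvy, hv⟩
        simp only [mem_insert]
        exact Or.inr (Or.inr this)
    have sR' : ∀ v ∈ R', v ∈ insert y (insert y' (R ∩ R')) := by
      intro v hv
      by_cases hvy : v = y
      · simp [hvy]
      · have : v ∈ R ∩ R' := by rw [e2]; exact mem_erase.mpr ⟨hvy, hv⟩
        simp only [mem_insert]
        exact Or.inr (Or.inr this)
    have h3 : (X.image m).card ≤ (insert y (insert y' (R ∩ R'))).card := by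
      apply Finset.card_le_card
      intro v hv
      obtain ⟨u, hu, rfl⟩ := Finset.mem_image.mp hv
      by_cases hut : u = t
      · rcases i2 u hu (by rw [hut]; exact htt) with h2 | h2
        · exact sR' _ h2
        · exact absurd (h2.1.symm.trans hut) hxt
      · rcases i1 u hu hut with h2 | h2
        · exact sR _ h2
        · rw [h2.2]; simp
    rw [Finset.card_image_of_injective _ minj, c5] at h3
    have h4 := Finset.card_insert_le y (insert y' (R ∩ R'))
    have h5 := Finset.card_insert_le y' (R ∩ R')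
    have h6 := Finset.card_le_card hI1
    omega

theorem four (h : RG U w r) (hr : 4 ≤ r) (cn : CN U w) (nt : NT U w r) (bd : BD U w r)
    (hU : U.card = 12) : False := by
  obtain ⟨m, hm⟩ := Pool.Agent.Helper35.RG3.xpm V U w r h (by omega)
  obtain ⟨X, hX⟩ := free_exists h nt bd hU hm
  have hmZ : ∀ u ∈ X, m u ∈ U \ X ∧ w u (m u) ≠ 0 := fun u hu =>
    ⟨mem_sdiff.mpr ⟨hm.mem h (hX.sub hu), hX.out u hu⟩, hm.adj u (hX.sub hu)⟩
  obtain ⟨g, ginj, gmem, gw⟩ := Pool.Agent.Helper85.RG3.ham V U X w r h hX.sub hX.card hX.cut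
    (fun T hT hT3 => cut_ge h nt hU (hT.trans hX.sub) ⟨1, by omega⟩ (by omega) (by omega))
    (fun s hs => ⟨m s, hX.out s hs, hm.adj s (hX.sub hs)⟩)
  have hg : Fr X g := ⟨ginj, gmem⟩
  obtain ⟨i, hi⟩ : ∃ i, 2 ≤ od U w X (g i) := by
    by_contra hc
    push Not at hc
    have h1 := od_sum h hX.card hg
    have := hc 0
    have := hc 1
    have := hc 2
    have := hc 3
    have := hc 4
    have := hX.cut
    omega
  set f : Fin 5 → V := fun j => g (i + j) with hf'
  have hf : Fr X f := ⟨fun a b hab => add_left_cancel (ginj hab), fun j => gmem _⟩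
  have f12 : w (f 1) (f 2) ≠ 0 := by
    have := gw (i + 1)
    rwa [add_assoc, show (1 + 1 : Fin 5) = 2 from rfl] at this
  have f34 : w (f 3) (f 4) ≠ 0 := by
    have := gw (i + 3)
    rwa [add_assoc, show (3 + 1 : Fin 5) = 4 from rfl] at this
  have f0 : f 0 = g i := by simp [hf']
  obtain ⟨σ, σinj, σ0, σ12, σ34, σno⟩ := loc (fun a b => w (f a) (f b)) (fun a => od U w X (f a)) r
    (fun a b => h.symm _ _) (fun a => h.irr _) (fun a => od_deg h hX.sub hX.card hf a)
    (fun a => od_pos (hmZ _ (hf.mem a)).1 (hmZ _ (hf.mem a)).2) (by rw [f0]; exact hi)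
    (by rw [od_sum h hX.card hf, hX.cut]) f12 f34
  have hfs : Fr X (fun a => f (σ a)) := ⟨fun a b hab => σinj (hf.inj hab), fun a => hf.mem _⟩
  have hB : ∀ y ∈ U \ X, w (f 0) y ≠ 0 → ∃ t ∈ X, f 0 ≠ t ∧ ∃ B, B ⊆ U \ X ∧ B.card = 4 ∧ y ∈ B ∧
      bt w (X.erase t) B ≤ 1 := by
    intro y hy hxy
    obtain ⟨t, ht, B, hB⟩ := getB h (by omega) cn nt bd hU hX.sub hX.card hX.cut hm hX.out hfs
      σ12 σ34 (fun p q hp hq => by
        have := σno p q hp hq
        simp only [σ0]
        exact this) hy (by simp only [σ0]; exact hxy)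
    refine ⟨f (σ t), hf.mem _, fun he => ht (σinj ?_), B, hB⟩
    rw [σ0]
    exact (hf.inj he).symm
  have hle : ∀ y ∈ U \ X, w (f 0) y ≤ if w (f 0) y ≠ 0 then 1 else 0 := by
    intro y hy
    split_ifs with hxy
    · obtain ⟨t, ht, hft, B, hBZ, cB, hyB, hBt⟩ := hB y hy hxy
      have : w (f 0) y ≤ bt w (X.erase t) B := le_bt w (mem_erase.mpr ⟨hft, hf.mem 0⟩) hyB
      omega
    · rw [not_not] at hxy
      omega
  have hcard : 1 < ((U \ X).filter fun y => w (f 0) y ≠ 0).card := by
    rw [Finset.card_filter]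
    have h1 : od U w X (f 0) = ∑ y ∈ U \ X, w (f 0) y := by
      unfold od
      rw [bt_singleton_left]
    have h2 := Finset.sum_le_sum hle
    rw [f0] at h1
    rw [f0] at h2
    rw [f0]
    omega
  obtain ⟨y, hy, y', hy', hyy⟩ := Finset.one_lt_card.mp hcard
  rw [mem_filter] at hy hy'
  obtain ⟨t, ht, hft, B, hBZ, cB, hyB, hBt⟩ := hB y hy.1 hy.2
  obtain ⟨t', ht', hft', B', hBZ', cB', hyB', hBt'⟩ := hB y' hy'.1 hy'.2
  have minj : Function.Injective m := fun a b hab => by
    rw [← hm.invol a, hab, hm.invol]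
  exact clash minj hX.card (by rw [Finset.card_sdiff_of_subset hX.sub, hU, hX.card]) hmZ
    (hf.mem 0) ht ht' hft hft' hBZ hBZ' cB cB' hyB hyB' hyy hy.2 hy'.2 hBt hBt'

end Pool.Agent.Helper89.RG12
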