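import Mathlib
import Pool.Agent.Helper35.RG3.XPM
import Pool.Agent.Helper89.RG12.A

set_option autoImplicit false
set_option linter.unusedSectionVars false

/-!
Twelve vertices, three colours.
-/

namespace Pool.Agent.Helper89.RG12

open Finset Pool.Agent.Helper37.RG3

variable {V : Type} [Fintype V] [DecidableEq V] {U : Finset V} {w : V → V → ℕ} {r : ℕ}

/-- a colouring given in a numbering of the vertices -/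
theorem col_num {k : ℕ} (h : RG U w r) (φ : Fin k → V) (hφ : Function.Injective φ)
    (hU : ∀ u ∈ U, ∃ i, φ i = u) (hU' : ∀ i, φ i ∈ U) (n : Fin r → Fin k → Fin k)
    (hn : ∀ c i, n c (n c i) = i) (hw : ∀ c i, w (φ i) (φ (n c i)) ≠ 0)
    (hi : ∀ i c c', n c i = n c' i → c = c') : Col w r := by
  classical
  set σ : Fin r → V → V := fun c u => if hu : ∃ i, φ i = u then φ (n c hu.choose) else u with hσ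
  have s1 : ∀ c i, σ c (φ i) = φ (n c i) := by
    intro c i
    have hu : ∃ j, φ j = φ i := ⟨i, rfl⟩
    have h1 : hu.choose = i := hφ hu.choose_spec
    simp only [hσ, dif_pos hu, h1]
  have s2 : ∀ c u, u ∉ U → σ c u = u := by
    intro c u hu
    have h1 : ¬ ∃ j, φ j = u := by
      rintro ⟨j, rfl⟩
      exact hu (hU' j)
    simp only [hσ, dif_neg h1]
  refine ⟨σ, ?_, ?_⟩
  · intro c u
    by_cases hu : u ∈ U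
    · obtain ⟨i, rfl⟩ := hU u hu
      rw [s1, s1, hn]
    · rw [s2 c u hu, s2 c u hu]
  · intro u v huv
    by_cases hu : u ∈ U
    · obtain ⟨i, rfl⟩ := hU u hu
      have h1 : ∀ v, (univ.filter fun c => σ c (φ i) = v).card ≤ w (φ i) v := by
        intro v
        have hle : (univ.filter fun c => σ c (φ i) = v).card ≤ 1 := by
          rw [Finset.card_le_one]
          intro c hc c' hc'
          rw [mem_filter] at hc hc'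
          have h2 := hc.2.trans hc'.2.symm
          rw [s1, s1] at h2
          exact hi i c c' (hφ h2)
        by_cases h0 : (univ.filter fun c => σ c (φ i) = v).card = 0
        · omega
        · obtain ⟨c, hc⟩ := Finset.card_pos.mp (Nat.pos_of_ne_zero h0)
          rw [mem_filter] at hc
          have h3 := hw c i
          rw [← s1, hc.2] at h3
          omega
      have h2 : ∑ v, (univ.filter fun c => σ c (φ i) = v).card = ∑ v, w (φ i) v := by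
        rw [h.deg _ (hU' i)]
        have h3 := Finset.card_eq_sum_card_fiberwise (f := fun c => σ c (φ i))
          (s := (univ : Finset (Fin r))) (t := (univ : Finset V)) (fun _ _ => by simp)
        rw [← h3]
        simp
      exact (Finset.sum_eq_sum_iff_of_le (fun v _ => h1 v)).mp h2 v (mem_univ v)
    · rw [h.zero_left hu, Finset.card_eq_zero, Finset.filter_eq_empty_iff]
      intro c _
      rw [s2 c u hu]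
      exact huv

/-- the edges of the numbered graph -/
def L (a b c d : Fin 5) : List (Fin 12 × Fin 12) :=
  [(0, 1), (1, 2), (2, 3), (3, 4), (4, 0), (10, 11), (10, 5), (10, 6), (11, 7), (11, 8), (9, 5),
   (9, 7), (6, 8), (Fin.castLE (by omega) a, 5), (Fin.castLE (by omega) b, 6),
   (Fin.castLE (by omega) c, 7), (Fin.castLE (by omega) d, 8), (0, 9)]

/-- `n` is a colouring of the numbered graph -/
def Ok (n : Fin 3 → Fin 12 → Fin 12) (a b c d : Fin 5) : Prop :=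
  (∀ c i, n c (n c i) = i) ∧ (∀ e i, (i, n e i) ∈ L a b c d ∨ (n e i, i) ∈ L a b c d) ∧
    ∀ i c c', n c i = n c' i → c = c'

instance (n : Fin 3 → Fin 12 → Fin 12) (a b c d : Fin 5) : Decidable (Ok n a b c d) := by
  unfold Ok
  infer_instance

/-- colourings -/
def tab : List (Fin 3 → Fin 12 → Fin 12) :=
  [![![1, 0, 6, 4, 3, 10, 2, 9, 11, 7, 5, 8], ![4, 2, 1, 7, 0, 9, 8, 3, 6, 5, 11, 10], ![9, 5, 3, 2, 8, 1, 10, 11, 4, 0, 6, 7]],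
   ![![1, 0, 3, 2, 7, 9, 10, 4, 11, 5, 6, 8], ![4, 5, 6, 8, 0, 1, 2, 9, 3, 7, 11, 10], ![9, 2, 1, 4, 3, 10, 8, 11, 6, 0, 5, 7]],
   ![![1, 0, 3, 2, 8, 9, 10, 11, 4, 5, 6, 7], ![4, 2, 1, 6, 0, 10, 3, 9, 11, 7, 5, 8], ![9, 5, 7, 4, 3, 1, 8, 2, 6, 0, 11, 10]],
   ![![1, 0, 8, 4, 3, 9, 10, 11, 2, 5, 6, 7], ![4, 2, 1, 6, 0, 10, 3, 9, 11, 7, 5, 8], ![9, 5, 3, 2, 7, 1, 8, 4, 6, 0, 11, 10]],
   ![![1, 0, 3, 2, 6, 10, 4, 9, 11, 7, 5, 8], ![4, 2, 1, 8, 0, 9, 10, 11, 3, 5, 6, 7], ![9, 5, 7, 4, 3, 1, 8, 2, 6, 0, 11, 10]],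
   ![![1, 0, 8, 4, 3, 9, 10, 11, 2, 5, 6, 7], ![4, 5, 3, 2, 0, 1, 8, 9, 6, 7, 11, 10], ![9, 2, 1, 7, 6, 10, 4, 3, 11, 0, 5, 8]],
   ![![1, 0, 5, 4, 3, 2, 8, 9, 6, 7, 11, 10], ![4, 2, 1, 7, 0, 9, 10, 3, 11, 5, 6, 8], ![9, 6, 3, 2, 8, 10, 1, 11, 4, 0, 5, 7]],
   ![![1, 0, 3, 2, 7, 9, 10, 4, 11, 5, 6, 8], ![4, 6, 5, 8, 0, 2, 1, 9, 3, 7, 11, 10], ![9, 2, 1, 4, 3, 10, 8, 11, 6, 0, 5, 7]],
   ![![1, 0, 3, 2, 8, 9, 10, 11, 4, 5, 6, 7], ![4, 2, 1, 6, 0, 10, 3, 9, 11, 7, 5, 8], ![9, 7, 5, 4, 3, 2, 8, 1, 6, 0, 11, 10]],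
   ![![1, 0, 3, 2, 7, 9, 8, 4, 6, 5, 11, 10], ![4, 2, 1, 6, 0, 10, 3, 9, 11, 7, 5, 8], ![9, 8, 5, 4, 3, 2, 10, 11, 1, 0, 6, 7]],
   ![![1, 0, 3, 2, 6, 10, 4, 9, 11, 7, 5, 8], ![4, 2, 1, 8, 0, 9, 10, 11, 3, 5, 6, 7], ![9, 7, 5, 4, 3, 2, 8, 1, 6, 0, 11, 10]],
   ![![1, 0, 3, 2, 6, 10, 4, 9, 11, 7, 5, 8], ![4, 2, 1, 7, 0, 9, 8, 3, 6, 5, 11, 10], ![9, 8, 5, 4, 3, 2, 10, 11, 1, 0, 6, 7]],
   ![![1, 0, 3, 2, 8, 9, 10, 11, 4, 5, 6, 7], ![4, 2, 1, 5, 0, 3, 8, 9, 6, 7, 11, 10], ![9, 6, 7, 4, 3, 10, 1, 2, 11, 0, 5, 8]],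
   ![![1, 0, 8, 4, 3, 9, 10, 11, 2, 5, 6, 7], ![4, 2, 1, 5, 0, 3, 8, 9, 6, 7, 11, 10], ![9, 6, 3, 2, 7, 10, 1, 4, 11, 0, 5, 8]],
   ![![1, 0, 3, 2, 8, 9, 10, 11, 4, 5, 6, 7], ![4, 2, 1, 5, 0, 3, 8, 9, 6, 7, 11, 10], ![9, 7, 6, 4, 3, 10, 2, 1, 11, 0, 5, 8]],
   ![![1, 0, 3, 2, 7, 9, 8, 4, 6, 5, 11, 10], ![4, 2, 1, 5, 0, 3, 10, 9, 11, 7, 6, 8], ![9, 8, 6, 4, 3, 10, 2, 11, 1, 0, 5, 7]],
   ![![1, 0, 8, 4, 3, 9, 10, 11, 2, 5, 6, 7], ![4, 2, 1, 5, 0, 3, 8, 9, 6, 7, 11, 10], ![9, 7, 3, 2, 6, 10, 4, 1, 11, 0, 5, 8]],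
   ![![1, 0, 7, 4, 3, 9, 8, 2, 6, 5, 11, 10], ![4, 2, 1, 5, 0, 3, 10, 9, 11, 7, 6, 8], ![9, 8, 3, 2, 6, 10, 4, 11, 1, 0, 5, 7]],
   ![![1, 0, 3, 2, 5, 4, 8, 9, 6, 7, 11, 10], ![4, 2, 1, 8, 0, 9, 10, 11, 3, 5, 6, 7], ![9, 6, 7, 4, 3, 10, 1, 2, 11, 0, 5, 8]],
   ![![1, 0, 8, 4, 3, 9, 10, 11, 2, 5, 6, 7], ![4, 6, 3, 2, 0, 10, 1, 9, 11, 7, 5, 8], ![9, 2, 1, 7, 5, 4, 8, 3, 6, 0, 11, 10]],
   ![![1, 0, 3, 2, 5, 4, 8, 9, 6, 7, 11, 10], ![4, 2, 1, 8, 0, 9, 10, 11, 3, 5, 6, 7], ![9, 7, 6, 4, 3, 10, 2, 1, 11, 0, 5, 8]],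
   ![![1, 0, 3, 2, 5, 4, 8, 9, 6, 7, 11, 10], ![4, 2, 1, 7, 0, 9, 10, 3, 11, 5, 6, 8], ![9, 8, 6, 4, 3, 10, 2, 11, 1, 0, 5, 7]],
   ![![1, 0, 8, 4, 3, 9, 10, 11, 2, 5, 6, 7], ![4, 2, 1, 6, 0, 10, 3, 9, 11, 7, 5, 8], ![9, 7, 3, 2, 5, 4, 8, 1, 6, 0, 11, 10]],
   ![![1, 0, 3, 2, 5, 4, 10, 9, 11, 7, 6, 8], ![4, 8, 7, 6, 0, 9, 3, 2, 1, 5, 11, 10], ![9, 2, 1, 4, 3, 10, 8, 11, 6, 0, 5, 7]]]

theorem tab_ok : ∀ a b c d : Fin 5, (a ≠ 0 ∧ b ≠ 0 ∧ c ≠ 0 ∧ d ≠ 0 ∧ a ≠ b ∧ a ≠ c ∧ a ≠ d ∧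
    b ≠ c ∧ b ≠ d ∧ c ≠ d) → ∃ n ∈ tab, Ok n a b c d := by
  decide +kernel

end Pool.Agent.Helper89.RG12
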