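import Mathlib
import Pool.Agent.Helper89.RG12.F

set_option autoImplicit false
set_option linter.unusedSectionVars false

/-!
Twelve vertices, three colours: the structure.
-/

namespace Pool.Agent.Helper89.RG12

open Finset Pool.Agent.Helper37.RG3

variable {V : Type} [Fintype V] [DecidableEq V] {U : Finset V} {w : V → V → ℕ} {r : ℕ}

theorem tri (h : RG U w 3) (nt : NT U w 3) (hU : U.card = 12) {a b c : V} (ha : a ∈ U)
    (hb : b ∈ U) (hc : c ∈ U) (hab : a ≠ b) (hac : a ≠ c) (hbc : b ≠ c) :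
    w a b + w a c + w b c ≤ 2 := by
  have hs : ({a, b, c} : Finset V) ⊆ U := by
    intro v hv
    simp only [mem_insert, mem_singleton] at hv
    rcases hv with rfl | rfl | rfl <;> assumption
  have h1 := h.deg_sum hs
  have h2 : ({a, b, c} : Finset V).card = 3 := by
    rw [Finset.card_insert_of_notMem (by simp [hab, hac]),
      Finset.card_insert_of_notMem (by simp [hbc]), Finset.card_singleton]
  have na : a ∉ ({b, c} : Finset V) := by simp [hab, hac]
  have nb : b ∉ ({c} : Finset V) := by simp [hbc]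
  have h3 : bt w {a, b, c} {a, b, c} = 2 * (w a b + w a c + w b c) := by
    unfold bt
    simp only [Finset.sum_insert na, Finset.sum_insert nb, Finset.sum_singleton, h.irr,
      h.symm b a, h.symm c a, h.symm c b]
    ring
  have h4 := cut_ge h nt hU hs ⟨1, by omega⟩ (by omega) (by omega)
  omega

theorem le_one (h : RG U w 3) (nt : NT U w 3) (hU : U.card = 12) (u v : V) : w u v ≤ 1 := by
  by_contra hc
  have h0 : w u v ≠ 0 := by omega
  have hu := h.supp u v h0
  have hv := h.supp' h0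
  have huv : u ≠ v := by
    rintro rfl
    exact h0 (h.irr u)
  obtain ⟨z, hz, hzu, hzv, hzw⟩ : ∃ z ∈ U, z ≠ u ∧ z ≠ v ∧ 3 ≤ w u v + w u z := by
    by_cases h3 : 3 ≤ w u v
    · have h1 : ((U.erase u).erase v).Nonempty := by
        rw [← Finset.card_pos, Finset.card_erase_of_mem (mem_erase.mpr ⟨huv.symm, hv⟩),
          Finset.card_erase_of_mem hu, hU]
        omega
      obtain ⟨z, hz⟩ := h1
      rw [mem_erase, mem_erase] at hz
      exact ⟨z, hz.2.2, hz.2.1, hz.1, by omega⟩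
    · by_contra hno
      push Not at hno
      have hd := h.deg u hu
      rw [← Finset.add_sum_erase _ _ (mem_univ v)] at hd
      have h1 : ∑ t ∈ univ.erase v, w u t = 0 := by
        refine Finset.sum_eq_zero fun t ht => ?_
        by_contra hne
        have h2 := hno t (h.supp' hne) (by
          rintro rfl
          exact hne (h.irr _)) (Finset.ne_of_mem_erase ht)
        omega
      omega
  have := tri h nt hU hu hv hz huv hzu.symm hzv.symm
  omega

theorem card_of_sum {S : Finset V} {F : V → ℕ} (hF : ∀ v, F v ≤ 1) {k : ℕ}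
    (hs : ∑ v ∈ S, F v = k) : (S.filter fun v => F v ≠ 0).card = k := by
  rw [Finset.card_filter, ← hs]
  refine Finset.sum_congr rfl fun v _ => ?_
  have := hF v
  split_ifs with h1
  · omega
  · rw [not_not] at h1
    omega

theorem five_num {Y : Finset V} {a b c d e : V} (ha : a ∈ Y) (hb : b ∈ Y) (hc : c ∈ Y)
    (hd : d ∈ Y) (he : e ∈ Y) (ab : a ≠ b) (ac : a ≠ c) (ad : a ≠ d) (ae : a ≠ e) (bc : b ≠ c)
    (bd : b ≠ d) (be : b ≠ e) (cd : c ≠ d) (ce : c ≠ e) (de : d ≠ e) :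
    Fr Y ![a, b, c, d, e] := by
  constructor
  · intro i j hij
    fin_cases i <;> fin_cases j <;> simp_all [eq_comm]
  · intro i
    fin_cases i <;> simpa

/-- the last step: a numbering of the graph gives a colouring -/
theorem num_col (h : RG U w 3) {x : Fin 5 → V} {f : Fin 5 → V} {p q : V} {τ : Fin 5 → Fin 5}
    (hφ : Function.Injective ![x 0, x 1, x 2, x 3, x 4, f 0, f 1, f 2, f 3, f 4, p, q])
    (hU : ∀ u ∈ U, ∃ i, ![x 0, x 1, x 2, x 3, x 4, f 0, f 1, f 2, f 3, f 4, p, q] i = u)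
    (hτ : Function.Injective τ) (h4 : τ 4 = 0) (xw : ∀ i, w (x i) (x (i + 1)) ≠ 0)
    (fw : ∀ i, w (x (τ i)) (f i) ≠ 0) (pq : w p q ≠ 0) (p0 : w p (f 0) ≠ 0) (p1 : w p (f 1) ≠ 0)
    (q2 : w q (f 2) ≠ 0) (q3 : w q (f 3) ≠ 0) (f40 : w (f 4) (f 0) ≠ 0) (f42 : w (f 4) (f 2) ≠ 0)
    (f13 : w (f 1) (f 3) ≠ 0) : Col w 3 := by
  set φ : Fin 12 → V := ![x 0, x 1, x 2, x 3, x 4, f 0, f 1, f 2, f 3, f 4, p, q] with hφd
  have hx : ∀ i : Fin 5, φ (Fin.castLE (by omega) i) = x i := by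
    intro i
    fin_cases i <;> rfl
  have h0 : ∀ i, i ≠ 4 → τ i ≠ 0 := fun i hi e => hi (hτ (e.trans h4.symm))
  have h1 : ∀ i j, i ≠ j → τ i ≠ τ j := fun i j hij e => hij (hτ e)
  obtain ⟨n, -, hn1, hn2, hn3⟩ := tab_ok (τ 0) (τ 1) (τ 2) (τ 3)
    ⟨h0 _ (by decide), h0 _ (by decide), h0 _ (by decide), h0 _ (by decide), h1 _ _ (by decide),
      h1 _ _ (by decide), h1 _ _ (by decide), h1 _ _ (by decide), h1 _ _ (by decide),
      h1 _ _ (by decide)⟩
  have hL : ∀ e ∈ L (τ 0) (τ 1) (τ 2) (τ 3), w (φ e.1) (φ e.2) ≠ 0 := by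
    intro e he
    simp only [L, List.mem_cons, List.not_mem_nil, or_false] at he
    rcases he with rfl | rfl | rfl | rfl | rfl | rfl | rfl | rfl | rfl | rfl | rfl | rfl | rfl |
      rfl | rfl | rfl | rfl | rfl
    · exact xw 0
    · exact xw 1
    · exact xw 2
    · exact xw 3
    · exact xw 4
    · exact pq
    · exact p0
    · exact p1
    · exact q2
    · exact q3
    · exact f40
    · exact f42
    · exact f13
    · simp only [hx]
      exact fw 0
    · simp only [hx]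
      exact fw 1
    · simp only [hx]
      exact fw 2
    · simp only [hx]
      exact fw 3
    · have := fw 4
      rw [h4] at this
      exact this
  have hw : ∀ c i, w (φ i) (φ (n c i)) ≠ 0 := by
    intro c i
    rcases hn2 c i with h1 | h1
    · exact hL _ h1
    · rw [h.symm]
      exact hL _ h1
  refine col_num h φ hφ hU ?_ n hn1 hw hn3
  intro i
  exact h.supp _ _ (hw 0 i)

theorem side (h : RG U w 3) (nt : NT U w 3) (hU : U.card = 12) {Y : Finset V} (hY : Y ⊆ U)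
    (c5 : Y.card = 5) {p q : V} (hp : p ∈ U) (hq : q ∈ U) (hpY : p ∉ Y) (hqY : q ∉ Y)
    (pq : w p q ≠ 0) (dp : ∑ v ∈ Y, w p v = 2) (dq : ∑ v ∈ Y, w q v = 2)
    (dy : ∀ u ∈ Y, ∑ v ∈ Y, w u v + w u p + w u q = 2) :
    ∃ f : Fin 5 → V, Fr Y f ∧ w p (f 0) ≠ 0 ∧ w p (f 1) ≠ 0 ∧ w q (f 2) ≠ 0 ∧ w q (f 3) ≠ 0 ∧
      w (f 4) (f 0) ≠ 0 ∧ w (f 4) (f 2) ≠ 0 ∧ w (f 1) (f 3) ≠ 0 := by
  have hpq : p ≠ q := by
    rintro rfl
    exact pq (h.irr _)
  have hPQ : ∀ v ∈ Y, ¬ (w p v ≠ 0 ∧ w q v ≠ 0) := by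
    rintro v hv ⟨h1, h2⟩
    have := tri h nt hU hp hq (hY hv) hpq (fun e => hpY (e ▸ hv)) (fun e => hqY (e ▸ hv))
    omega
  have cp := card_of_sum (fun v => le_one h nt hU p v) dp
  have cq := card_of_sum (fun v => le_one h nt hU q v) dq
  obtain ⟨a, b, ab, hab⟩ := Finset.card_eq_two.mp cp
  obtain ⟨c, d, cd, hcd⟩ := Finset.card_eq_two.mp cq
  have ha : a ∈ Y ∧ w p a ≠ 0 := by
    have h1 : a ∈ Y.filter fun v => w p v ≠ 0 := by rw [hab]; simp
    exact mem_filter.mp h1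
  have hb : b ∈ Y ∧ w p b ≠ 0 := by
    have h1 : b ∈ Y.filter fun v => w p v ≠ 0 := by rw [hab]; simp
    exact mem_filter.mp h1
  have hc : c ∈ Y ∧ w q c ≠ 0 := by
    have h1 : c ∈ Y.filter fun v => w q v ≠ 0 := by rw [hcd]; simp
    exact mem_filter.mp h1
  have hd : d ∈ Y ∧ w q d ≠ 0 := by
    have h1 : d ∈ Y.filter fun v => w q v ≠ 0 := by rw [hcd]; simp
    exact mem_filter.mp h1
  have ac : a ≠ c := by rintro rfl; exact hPQ _ ha.1 ⟨ha.2, hc.2⟩
  have ad : a ≠ d := by rintro rfl; exact hPQ _ ha.1 ⟨ha.2, hd.2⟩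
  have bc : b ≠ c := by rintro rfl; exact hPQ _ hb.1 ⟨hb.2, hc.2⟩
  have bd : b ≠ d := by rintro rfl; exact hPQ _ hb.1 ⟨hb.2, hd.2⟩
  obtain ⟨e, he⟩ : ((((Y.erase a).erase b).erase c).erase d).Nonempty := by
    rw [← Finset.card_pos, Finset.card_erase_of_mem, Finset.card_erase_of_mem,
      Finset.card_erase_of_mem, Finset.card_erase_of_mem ha.1, c5]
    · omega
    · simp [ab.symm, hb.1]
    · simp [ac.symm, bc.symm, hc.1]
    · simp [ad.symm, bd.symm, cd.symm, hd.1]
  simp only [mem_erase] at he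
  obtain ⟨ed, ec, eb, ea, heY⟩ := he
  have hp0 : ∀ v ∈ Y, v ≠ a → v ≠ b → w p v = 0 := by
    intro v hv va vb
    by_contra hne
    have : v ∈ Y.filter fun v => w p v ≠ 0 := mem_filter.mpr ⟨hv, hne⟩
    rw [hab, mem_insert, mem_singleton] at this
    tauto
  have hq0 : ∀ v ∈ Y, v ≠ c → v ≠ d → w q v = 0 := by
    intro v hv vc vd
    by_contra hne
    have : v ∈ Y.filter fun v => w q v ≠ 0 := mem_filter.mpr ⟨hv, hne⟩
    rw [hcd, mem_insert, mem_singleton] at this
    tauto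
  have F := five_num ha.1 hb.1 hc.1 hd.1 heY ab ac ad ea.symm bc bd eb.symm cd ec.symm ed.symm
  have hs : ∀ u, ∑ v ∈ Y, w u v = w u a + w u b + w u c + w u d + w u e := by
    intro u
    rw [F.sum c5]
    rfl
  have l := le_one h nt hU
  have tab := tri h nt hU hp (hY ha.1) (hY hb.1) (fun e => hpY (e ▸ ha.1))
    (fun e => hpY (e ▸ hb.1)) ab
  have tcd := tri h nt hU hq (hY hc.1) (hY hd.1) (fun e => hqY (e ▸ hc.1))
    (fun e => hqY (e ▸ hd.1)) cd
  have da := dy a ha.1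
  have db := dy b hb.1
  have dc := dy c hc.1
  have dd := dy d hd.1
  have de := dy e heY
  rw [hs, h.symm _ p, h.symm _ q] at da db dc dd de
  rw [h.irr, hq0 a ha.1 ac ad] at da
  rw [h.irr, h.symm b a, hq0 b hb.1 bc bd] at db
  rw [h.irr, h.symm c a, h.symm c b, hp0 c hc.1 ac.symm bc.symm] at dc
  rw [h.irr, h.symm d a, h.symm d b, h.symm d c, hp0 d hd.1 ad.symm bd.symm] at dd
  rw [h.irr, h.symm e a, h.symm e b, h.symm e c, h.symm e d, hp0 e heY ea eb,
    hq0 e heY ec ed] at de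
  have := l p a
  have := l p b
  have := l q c
  have := l q d
  have hsum : w a c + w a d + w b c + w b d = 1 := by omega
  rcases (by omega : w b d ≠ 0 ∨ w a c ≠ 0 ∨ w a d ≠ 0 ∨ w b c ≠ 0) with h1 | h1 | h1 | h1
  · refine ⟨![a, b, c, d, e], F, ha.2, hb.2, hc.2, hd.2, ?_, ?_, h1⟩
    · show w e a ≠ 0
      rw [h.symm]
      omega
    · show w e c ≠ 0
      rw [h.symm]
      omega
  · refine ⟨![b, a, d, c, e], five_num hb.1 ha.1 hd.1 hc.1 heY ab.symm bd bc eb.symm ad ac ea.symm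
      cd.symm ed.symm ec.symm, hb.2, ha.2, hd.2, hc.2, ?_, ?_, h1⟩
    · show w e b ≠ 0
      rw [h.symm]
      omega
    · show w e d ≠ 0
      rw [h.symm]
      omega
  · refine ⟨![b, a, c, d, e], five_num hb.1 ha.1 hc.1 hd.1 heY ab.symm bc bd eb.symm ac ad ea.symm
      cd ec.symm ed.symm, hb.2, ha.2, hc.2, hd.2, ?_, ?_, h1⟩
    · show w e b ≠ 0
      rw [h.symm]
      omega
    · show w e c ≠ 0
      rw [h.symm]
      omega
  · refine ⟨![a, b, d, c, e], five_num ha.1 hb.1 hd.1 hc.1 heY ab ad ac ea.symm bd bc eb.symm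
      cd.symm ed.symm ec.symm, ha.2, hb.2, hd.2, hc.2, ?_, ?_, h1⟩
    · show w e a ≠ 0
      rw [h.symm]
      omega
    · show w e d ≠ 0
      rw [h.symm]
      omega

theorem three (h : RG U w 3) (nt : NT U w 3) (bd : BD U w 3) (hU : U.card = 12) : Col w 3 := by
  obtain ⟨m, hm⟩ := Pool.Agent.Helper35.RG3.xpm V U w 3 h (by omega)
  obtain ⟨X, hX⟩ := free_exists h nt bd hU hm
  have hmZ : ∀ u ∈ X, m u ∈ U \ X ∧ w u (m u) ≠ 0 := fun u hu =>
    ⟨mem_sdiff.mpr ⟨hm.mem h (hX.sub hu), hX.out u hu⟩, hm.adj u (hX.sub hu)⟩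
  obtain ⟨g, ginj, gmem, gw⟩ := Pool.Agent.Helper85.RG3.ham V U X w 3 h hX.sub hX.card hX.cut
    (fun T hT hT3 => cut_ge h nt hU (hT.trans hX.sub) ⟨1, by omega⟩ (by omega) (by omega))
    (fun s hs => ⟨m s, hX.out s hs, hm.adj s (hX.sub hs)⟩)
  have hg : Fr X g := ⟨ginj, gmem⟩
  have minj : Function.Injective m := fun a b hab => by
    rw [← hm.invol a, hab, hm.invol]
  have hod : ∀ u ∈ X, od U w X u = 1 := by
    have h1 := od_sum h hX.card hg
    have h2 := hX.cut
    have h3 : ∀ i, 1 ≤ od U w X (g i) := fun i => od_pos (hmZ _ (gmem i)).1 (hmZ _ (gmem i)).2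
    have := h3 0
    have := h3 1
    have := h3 2
    have := h3 3
    have := h3 4
    intro u hu
    rcases hg.ex hX.card hu with e | e | e | e | e <;> rw [e] <;> omega
  have hout : ∀ u ∈ X, ∀ v ∈ U \ X, v ≠ m u → w u v = 0 := by
    intro u hu v hv hne
    have h1 : bt w {u} {m u, v} ≤ bt w {u} (U \ X) := by
      apply bt_mono _ (Finset.Subset.refl _)
      intro t ht
      rw [mem_insert, mem_singleton] at ht
      rcases ht with rfl | rfl
      · exact (hmZ u hu).1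
      · exact hv
    rw [bt_singleton_left, Finset.sum_insert (by
      rw [mem_singleton]
      exact hne.symm), Finset.sum_singleton] at h1
    have h2 := hod u hu
    unfold od at h2
    have h3 := (hmZ u hu).2
    omega
  set Y := X.image m with hYd
  have cY : Y.card = 5 := by rw [hYd, Finset.card_image_of_injective _ minj, hX.card]
  have hYZ : Y ⊆ U \ X := by
    intro v hv
    obtain ⟨u, hu, rfl⟩ := Finset.mem_image.mp hv
    exact (hmZ u hu).1
  have hYU : Y ⊆ U := hYZ.trans Finset.sdiff_subset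
  have cZ : (U \ X).card = 7 := by rw [Finset.card_sdiff_of_subset hX.sub, hU, hX.card]
  have cPQ : ((U \ X) \ Y).card = 2 := by rw [Finset.card_sdiff_of_subset hYZ, cZ, cY]
  obtain ⟨p, q, hpq, hPQ⟩ := Finset.card_eq_two.mp cPQ
  have hp : p ∈ (U \ X) \ Y := by rw [hPQ]; simp
  have hq : q ∈ (U \ X) \ Y := by rw [hPQ]; simp
  rw [mem_sdiff] at hp hq
  have hpU := (mem_sdiff.mp hp.1).1
  have hqU := (mem_sdiff.mp hq.1).1
  have hmp : m p = q := by
    have h1 : m p ∈ (U \ X) \ Y := by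
      rw [mem_sdiff, mem_sdiff]
      refine ⟨⟨hm.mem h hpU, ?_⟩, ?_⟩
      · intro h2
        apply hp.2
        rw [hYd, Finset.mem_image]
        exact ⟨m p, h2, hm.invol p⟩
      · intro h2
        obtain ⟨u, hu, hu'⟩ := Finset.mem_image.mp h2
        rw [minj hu'] at hu
        exact (mem_sdiff.mp hp.1).2 hu
    rw [hPQ, mem_insert, mem_singleton] at h1
    rcases h1 with h1 | h1
    · exfalso
      have := hm.adj p hpU
      rw [h1, h.irr] at this
      exact this rfl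
    · exact h1
  have pq : w p q ≠ 0 := by rw [← hmp]; exact hm.adj p hpU
  have hUe : ∀ u ∈ U, u ∈ X ∨ u ∈ Y ∨ u = p ∨ u = q := by
    intro u hu
    by_cases h1 : u ∈ X
    · exact Or.inl h1
    · by_cases h2 : u ∈ Y
      · exact Or.inr (Or.inl h2)
      · have : u ∈ (U \ X) \ Y := mem_sdiff.mpr ⟨mem_sdiff.mpr ⟨hu, h1⟩, h2⟩
        rw [hPQ, mem_insert, mem_singleton] at this
        exact Or.inr (Or.inr this)
  have hdeg : ∀ v ∈ U, ∑ t ∈ X, w v t + (∑ t ∈ Y, w v t + (w v p + w v q)) = 3 := by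
    intro v hv
    have h1 := h.bt_deg' (X := {v}) (by
      intro t ht
      rw [mem_singleton] at ht
      rw [ht]
      exact hv)
    rw [Finset.card_singleton, bt_singleton_left] at h1
    have e1 : U = X ∪ (Y ∪ {p, q}) := by
      rw [← hPQ, Finset.union_sdiff_of_subset hYZ, Finset.union_sdiff_of_subset hX.sub]
    have d1 : Disjoint Y {p, q} := by
      rw [← hPQ]
      exact Finset.disjoint_sdiff
    have d2 : Disjoint X (Y ∪ {p, q}) := by
      rw [← hPQ, Finset.union_sdiff_of_subset hYZ]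
      exact Finset.disjoint_sdiff
    rw [e1, Finset.sum_union d2, Finset.sum_union d1, Finset.sum_pair hpq] at h1
    exact h1
  have l := le_one h nt hU
  have hX0 : ∀ v ∈ U \ X, v ∉ Y → ∑ t ∈ X, w v t = 0 := by
    intro v hv hvY
    refine Finset.sum_eq_zero fun t ht => ?_
    rw [h.symm]
    refine hout t ht v hv ?_
    rintro rfl
    exact hvY (Finset.mem_image_of_mem m ht)
  have hX1 : ∀ v ∈ Y, ∑ t ∈ X, w v t = 1 := by
    intro v hv
    have hv' := hYZ hv
    obtain ⟨u, hu, rfl⟩ := Finset.mem_image.mp hv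
    rw [Finset.sum_eq_single u]
    · have h1 := l (m u) u
      have h2 := (hmZ u hu).2
      rw [h.symm] at h2
      omega
    · intro t ht htu
      rw [h.symm]
      exact hout t ht _ hv' fun e => htu (minj e).symm
    · intro h1
      exact absurd hu h1
  have lpq := l p q
  have dp : ∑ v ∈ Y, w p v = 2 := by
    have h1 := hdeg p hpU
    rw [hX0 p hp.1 hp.2, h.irr] at h1
    omega
  have dq : ∑ v ∈ Y, w q v = 2 := by
    have h1 := hdeg q hqU
    rw [hX0 q hq.1 hq.2, h.irr, h.symm q p] at h1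
    omega
  obtain ⟨f, hf, p0, p1, q2, q3, f40, f42, f13⟩ := side h nt hU hYU cY hpU hqU hp.2 hq.2 pq dp dq
    (fun u hu => by
      have h1 := hdeg u (hYU hu)
      rw [hX1 u hu] at h1
      omega)
  -- the numbering
  have hτ : ∀ i, ∃ j, m (g j) = f i := by
    intro i
    obtain ⟨u, hu, hu'⟩ := Finset.mem_image.mp (hf.mem i)
    rcases hg.ex hX.card hu with e | e | e | e | e
    exacts [⟨0, by rw [← e, hu']⟩, ⟨1, by rw [← e, hu']⟩, ⟨2, by rw [← e, hu']⟩,
      ⟨3, by rw [← e, hu']⟩, ⟨4, by rw [← e, hu']⟩]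
  choose τ hτ using hτ
  set x : Fin 5 → V := fun j => g (j + τ 4) with hxd
  have hx : Fr X x := ⟨fun a b hab => add_right_cancel (ginj hab), fun j => gmem _⟩
  have hxτ : ∀ i, x (τ i - τ 4) = g (τ i) := by
    intro i
    rw [hxd]
    simp only [sub_add_cancel]
  have hcov : ∀ u ∈ U, ∃ i,
      (![x 0, x 1, x 2, x 3, x 4, f 0, f 1, f 2, f 3, f 4, p, q] : Fin 12 → V) i = u := by
    intro u hu
    rcases hUe u hu with h1 | h1 | h1 | h1
    · rcases hx.ex hX.card h1 with e | e | e | e | e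
      exacts [⟨0, e.symm⟩, ⟨1, e.symm⟩, ⟨2, e.symm⟩, ⟨3, e.symm⟩, ⟨4, e.symm⟩]
    · rcases hf.ex cY h1 with e | e | e | e | e
      exacts [⟨5, e.symm⟩, ⟨6, e.symm⟩, ⟨7, e.symm⟩, ⟨8, e.symm⟩, ⟨9, e.symm⟩]
    · exact ⟨10, h1.symm⟩
    · exact ⟨11, h1.symm⟩
  refine num_col h (x := x) (f := f) (p := p) (q := q) (τ := fun i => τ i - τ 4) ?_ hcov ?_ ?_ ?_
    ?_ pq p0 p1 q2 q3 f40 f42 f13
  · have h1 : U ⊆ univ.image
        (![x 0, x 1, x 2, x 3, x 4, f 0, f 1, f 2, f 3, f 4, p, q] : Fin 12 → V) := by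
      intro u hu
      obtain ⟨i, hi⟩ := hcov u hu
      exact Finset.mem_image.mpr ⟨i, mem_univ i, hi⟩
    have h2 := Finset.card_le_card h1
    have h3 := Finset.card_image_le (s := univ)
      (f := (![x 0, x 1, x 2, x 3, x 4, f 0, f 1, f 2, f 3, f 4, p, q] : Fin 12 → V))
    have h4 : (univ : Finset (Fin 12)).card = 12 := by simp
    have h5 := Finset.injOn_of_card_image_eq (s := univ)
      (f := (![x 0, x 1, x 2, x 3, x 4, f 0, f 1, f 2, f 3, f 4, p, q] : Fin 12 → V)) (by omega)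
    intro i j hij
    exact h5 (by simp) (by simp) hij
  · intro i j hij
    have h1 : τ i = τ j := sub_left_injective hij
    apply hf.inj
    rw [← hτ, ← hτ, h1]
  · exact sub_self _
  · intro i
    have := gw (i + τ 4)
    rw [hxd]
    simp only
    rwa [add_right_comm]
  · intro i
    rw [hxτ, ← hτ i]
    exact (hmZ _ (gmem _)).2

end Pool.Agent.Helper89.RG12
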