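import Mathlib
import Pool.Agent.Helper37.RG3.Fin
import Pool.Agent.Helper89.RG12.E
import Pool.Agent.Helper89.RG12.G

set_option autoImplicit false
set_option linter.unusedSectionVars false

/-!
Assembly: no critical graph has twelve vertices.
-/

namespace Pool.Agent.Helper89.RG12

open Finset Pool.Agent.Helper37.RG3

variable {V : Type} [Fintype V] [DecidableEq V] {U : Finset V} {w : V → V → ℕ} {r : ℕ}

theorem three_le (h : RG U w r) (hr : 0 < r) (nt : NT U w r) (bd : BD U w r)
    (hU : U.card = 12) : 3 ≤ r := by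
  obtain ⟨m, hm⟩ := Pool.Agent.Helper35.RG3.xpm V U w r h hr
  obtain ⟨X, hX⟩ := free_exists h nt bd hU hm
  have h1 := hX.cut
  rw [h.ct_eq] at h1
  have h2 : X.card ≤ bt w X (U \ X) := by
    refine card_le_bt (m := m) fun u hu => ?_
    exact ⟨mem_sdiff.mpr ⟨hm.mem h (hX.sub hu), hX.out u hu⟩, hm.adj u (hX.sub hu)⟩
  have h3 := hX.card
  omega

theorem crit_ne_twelve (h : Crit U w r) : U.card ≠ 12 := by
  intro hU
  have h3 := three_le h.rg h.pos h.nt h.bd hU
  rcases Nat.lt_or_ge 3 r with h4 | h4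
  · exact four h.rg h4 h.cn h.nt h.bd hU
  · obtain rfl : r = 3 := by omega
    exact h.nc (three h.rg h.nt h.bd hU)

theorem crit_fourteen (h : Crit U w r) (hp : ¬ PetM (Adj w) U) : 14 ≤ U.card := by
  have h12 := crit_twelve h hp
  obtain ⟨k, hk⟩ := h.rg.even_card h.pos
  have := crit_ne_twelve h
  omega

/-- Every `r`-graph with at most twelve vertices and no Petersen minor is colourable. -/
theorem twelve (h : RG U w r) (hU : U.card ≤ 13) (hp : ¬ PetM (Adj w) U) : Col w r := by
  by_contra nc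
  obtain ⟨U', w', r', -, hU', hc, hm⟩ := crit h nc
  have hp' : ¬ PetM (Adj w') U' := fun hh => hp (PetM.of_mnr (adj_symm h) hm hh)
  have h14 := crit_fourteen hc hp'
  have := Finset.card_le_card hU'
  omega

/-- Small bags. -/
theorem small_bags {ι : Type} [Finite ι] {T : SimpleGraph ι} {β : ι → Finset V} (h : RG U w r)
    (hp : ¬ PetM (Adj w) U) (ht : TD T β (Adj w) U 7 3) : Col w r := by
  by_contra nc
  obtain ⟨U', w', r', -, hU', hc, hm⟩ := crit h nc
  have hp' : ¬ PetM (Adj w') U' := fun hh => hp (PetM.of_mnr (adj_symm h) hm hh)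
  have h14 := crit_fourteen hc hp'
  have hrg := hc.rg
  obtain ⟨β', ht'⟩ := Pool.Agent.Helper74.RG3.tdm V ι T β (Adj w) (Adj w') U U' 7 3 (adj_symm h)
    (fun u v huv => ⟨h.supp u v huv, h.supp' huv⟩)
    (fun u v huv => ⟨hrg.supp u v huv, hrg.supp' huv⟩) ht hm
  obtain ⟨t, ht1⟩ := Pool.Agent.Helper62.RG3.snk V ι T β' (Adj w') U' 7 (adj_symm hrg)
    (fun u v huv => ⟨hrg.supp u v huv, hrg.supp' huv⟩) ht' (by omega) hc.i4
  have hb := ht'.bag t
  have hs := ht'.sub t
  refine hc.nc (Pool.Agent.Helper33.RG3.bip Pool.Agent.Helper35.RG3.xpm V U' (β' t) w' r' hrg hs ?_ ?_)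
  · rw [Finset.card_sdiff_of_subset hs]
    omega
  · intro u hu v hv
    by_cases huv : u = v
    · rw [huv, hrg.irr]
    · by_contra hne
      exact ht1 u hu v hv huv hne

end Pool.Agent.Helper89.RG12
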